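import Pool.Agent.Run7.h619.SK.Flex

/-!
# Skew products over chain transitive maps with the periodic shadowing property: definitions
-/

set_option autoImplicit false
set_option linter.unusedSectionVars false

open Filter Set Metric
open scoped Manifold ContDiff Topology

universe u v w

namespace Run7.h619.SK

open Pool.Agent.H718R2.G Pool.Agent.W564.SC

/-- `ψ` is an action of `ℝ^d` on `N` by diffeomorphisms, of class `C^r` -/
structure IsAct (d n : ℕ) (N : Type*) [TopologicalSpace N] [ChartedSpace (V n) N] (r : ℕ∞)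
    (ψ : V d → N → N) : Prop where
  smooth : ContMDiff ((𝓡 d).prod (𝓡 n)) (𝓡 n) r (fun q : V d × N => ψ q.1 q.2)
  zero : ∀ y, ψ 0 y = y
  add : ∀ s t y, ψ (s + t) y = ψ s (ψ t y)

/-- the skew product `(x, y) ↦ (φ_(c(y)) f(x), h(y))` -/
def skew {d : ℕ} {X Y : Type*} (φ : V d → X → X) (f : X → X) (h : Y → Y) (c : Y → V d)
    (p : X × Y) : X × Y := (φ (c p.2) (f p.1), h p.2)

/-- The diffeomorphism `F` is, on the compact set `Θ(X × Y)`, the skew product `skew φ f h c`, where `φ` is
the restriction of the action `ψ` of `ℝ^d` to the fibres `Θ(X × {y})`, and the continuous map `f` commutes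
with `φ`. -/
structure IsSkew {d n : ℕ} {N : Type*} [TopologicalSpace N] [ChartedSpace (V n) N] {r : ℕ∞}
    (F : DiffM n N r) {X Y : Type*} [TopologicalSpace X] [TopologicalSpace Y] (Θ : X × Y → N)
    (ψ : V d → N → N) (φ : V d → X → X) (f : X → X) (h : Y → Y) (c : Y → V d) : Prop where
  act : IsAct d n N r ψ
  emb : Topology.IsEmbedding Θ
  restr : ∀ s x y, ψ s (Θ (x, y)) = Θ (φ s x, y)
  contf : Continuous f
  contc : Continuous c
  comm : ∀ s x, f (φ s x) = φ s (f x)
  map : ∀ p, F (Θ p) = Θ (skew φ f h c p)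

/-- `z` is a nonwandering point of the restriction of `F` to a compact set `Θ(X × Y)` on which `F` is a skew
product as in `IsSkew` over a chain transitive homeomorphism `h` of the infinite compact metric space `Y`
with the periodic shadowing property. -/
def IsSkewOver (d : ℕ) (X Y : Type*) [MetricSpace X] [MetricSpace Y] (n : ℕ) (N : Type*)
    [TopologicalSpace N] [ChartedSpace (V n) N] (r : ℕ∞) (F : DiffM n N r) (z : N) : Prop :=
  ∃ (Θ : X × Y → N) (ψ : V d → N → N) (φ : V d → X → X) (f : X → X) (h : Y ≃ₜ Y) (c : Y → V d),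
    IsSkew F Θ ψ φ f h c ∧ PerShadow h ∧ ChainTrans h ∧
      ∃ p, Θ p = z ∧ NonWand (skew φ f h c) p

/-- The same, for some `d` and some compact metric spaces `X` and `Y`, `Y` infinite. -/
def IsSkewPoint (n : ℕ) (N : Type u) [TopologicalSpace N] [ChartedSpace (V n) N] (r : ℕ∞)
    (F : DiffM n N r) (z : N) : Prop :=
  ∃ (d : ℕ) (X : Type v) (Y : Type w) (_ : MetricSpace X) (_ : CompactSpace X) (_ : MetricSpace Y)
    (_ : CompactSpace Y) (_ : Infinite Y), IsSkewOver d X Y n N r F z

end Run7.h619.SK
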