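import Pool.Agent.Run7.h619.SK.FlowC

/-!
# Time maps of skew product flows: statement
-/

set_option autoImplicit false
set_option linter.unusedSectionVars false

open Filter Set Metric
open scoped Manifold ContDiff Topology

universe u v w

namespace Run7.h619.SK

open Pool.Agent.H718R2.G Pool.Agent.W564.SC Pool.Agent.TH382.QC Pool.Agent.TH382.HS

/-- The flow `g` is chain transitive (with steps of length one), has the periodic shadowing property, and
`Y` is not a single orbit. -/
structure IsBaseFlow {Y : Type*} [MetricSpace Y] (g : ℝ → Y → Y) : Prop where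
  shadow : FlowShadow g
  trans : ChainTrans (g 1)
  ne : ∀ y : Y, ∃ y', ∀ t, g t y ≠ y'

/-- `z` is a nonwandering point of the restriction of `F` to a compact set `Θ(X × Y)` on which `F` is the
composition of a map `(x, y) ↦ (f(x), y)` with the time-`τ` map of a skew product flow as in `IsSkewFlow`,
`τ > 0`, over a flow `g` as in `IsBaseFlow`, where the continuous map `f` commutes with `φ`. -/
def IsSkewFlowOver (d : ℕ) (X Y : Type*) [MetricSpace X] [MetricSpace Y] (n : ℕ) (N : Type*)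
    [TopologicalSpace N] [ChartedSpace (V n) N] (r : ℕ∞) (F : DiffM n N r) (z : N) : Prop :=
  ∃ (Θ : X × Y → N) (ψ : V d → N → N) (Ψ : ℝ → N → N) (φ : V d → X → X) (f : X → X)
    (g : ℝ → Y → Y) (C : ℝ → Y → V d) (τ : ℝ), IsSkewFlow n r Θ ψ Ψ φ g C ∧ IsBaseFlow g ∧
      Continuous f ∧ (∀ s x, f (φ s x) = φ s (f x)) ∧ 0 < τ ∧
      (∀ x y, F (Θ (x, y)) = Ψ τ (Θ (f x, y))) ∧
      ∃ p, Θ p = z ∧ NonWand (skew φ f (g τ) (C τ)) p

/-- The same, for some `d` and some compact metric spaces `X` and `Y`. -/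
def IsSkewFlowPoint (n : ℕ) (N : Type u) [TopologicalSpace N] [ChartedSpace (V n) N] (r : ℕ∞)
    (F : DiffM n N r) (z : N) : Prop :=
  ∃ (d : ℕ) (X : Type v) (Y : Type w) (_ : MetricSpace X) (_ : CompactSpace X) (_ : MetricSpace Y)
    (_ : CompactSpace Y), IsSkewFlowOver d X Y n N r F z

variable {n : ℕ} {N : Type u} [TopologicalSpace N] [T2Space N] [CompactSpace N]
  [ChartedSpace (V n) N] [IsManifold (𝓡 n) ∞ N] {r : ℕ∞}

theorem closable_of_flowPoint (hr : 1 ≤ r) (F : DiffM n N r) (z : N)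
    (h : IsSkewFlowPoint.{u, v, w} n N r F z) : ClosableAt n N r F z := by
  obtain ⟨d, X, Y, _, _, _, _, Θ, ψ, Ψ, φ, f, g, C, τ, hF, hg, hf, hcomm, hτ, hmap, ⟨x, y⟩, rfl, hw⟩ := h
  exact closable_of_flow hr F hF hf hcomm τ hτ hmap hg.shadow hg.trans hg.ne x y hw

theorem limit_flow (hr : 1 ≤ r) (F : DiffM n N r) (z : N)
    (h : ∀ U : Set (DiffM n N r), IsOpen[strongTop n N r] U → F ∈ U →
      ∃ F' ∈ U, z ∈ closure {y | IsSkewFlowPoint.{u, v, w} n N r F' y}) :
    ClosableAt n N r F z := by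
  apply closable_of_limit
  intro U hU hFU
  obtain ⟨F', hF', hz⟩ := h U hU hFU
  exact ⟨F', hF', closure_mono (fun y hy => closable_of_flowPoint hr F' y hy) hz⟩

end Run7.h619.SK
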