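import Pool.Agent.W564.SC.Lib
import Pool.Agent.W216.SC.A
import Pool.Agent.W816.SC.Flex

/-!
# Periodic orbits of chain transitive maps with the periodic shadowing property
-/

set_option autoImplicit false
set_option linter.unusedSectionVars false

open Filter Set Metric
open scoped Topology

universe u v w

namespace Run7.h619.SK

open Pool.Agent.W564.SC

/-- chain transitivity -/
def ChainTrans {Y : Type*} [MetricSpace Y] (h : Y → Y) : Prop :=
  ∀ δ : ℝ, 0 < δ → ∀ p q : Y, ∃ (m : ℕ) (w : ℕ → Y), 1 ≤ m ∧ w 0 = p ∧ w m = q ∧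
    ∀ i < m, dist (h (w i)) (w (i + 1)) < δ

section chains

variable {Y : Type*} [MetricSpace Y]

/-- there is a `δ`-chain of length `m` from `p` to `q` -/
def Ch (h : Y → Y) (δ : ℝ) (m : ℕ) (p q : Y) : Prop :=
  ∃ w : ℕ → Y, w 0 = p ∧ w m = q ∧ ∀ i < m, dist (h (w i)) (w (i + 1)) < δ

theorem glue (J : Y → Y → Prop) {w1 w2 : ℕ → Y} {a b : ℕ} (h1 : ∀ i < a, J (w1 i) (w1 (i + 1)))
    (h2 : ∀ i < b, J (w2 i) (w2 (i + 1))) (h : w1 a = w2 0) :
    ∃ w : ℕ → Y, (∀ i ≤ a, w i = w1 i) ∧ (∀ i, w (a + i) = w2 i) ∧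
      ∀ i < a + b, J (w i) (w (i + 1)) := by
  obtain ⟨w, hw⟩ : ∃ w : ℕ → Y, w = fun i => if i ≤ a then w1 i else w2 (i - a) := ⟨_, rfl⟩
  have ha : ∀ i ≤ a, w i = w1 i := by
    intro i hi
    rw [hw]
    simp only [hi, if_true]
  have hb : ∀ i, w (a + i) = w2 i := by
    intro i
    rcases Nat.eq_zero_or_pos i with rfl | hi
    · rw [add_zero, ha a le_rfl, h]
    · rw [hw]
      have h3 : ¬ a + i ≤ a := by omega
      simp only [h3, if_false]
      rw [Nat.add_sub_cancel_left]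
  refine ⟨w, ha, hb, fun i hi => ?_⟩
  rcases lt_or_ge i a with h3 | h3
  · rw [ha i h3.le, ha (i + 1) h3]
    exact h1 i h3
  · obtain ⟨j, rfl⟩ := Nat.exists_eq_add_of_le h3
    rw [add_assoc, hb, hb]
    exact h2 j (by omega)

theorem Ch.trans {h : Y → Y} {δ : ℝ} {m m' : ℕ} {p q q' : Y} (h1 : Ch h δ m p q)
    (h2 : Ch h δ m' q q') : Ch h δ (m + m') p q' := by
  obtain ⟨w1, a1, a2, a3⟩ := h1
  obtain ⟨w2, b1, b2, b3⟩ := h2
  obtain ⟨w, h3, h4, h5⟩ := glue (fun a b => dist (h a) b < δ) a3 b3 (by rw [a2, b1])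
  refine ⟨w, by rw [h3 0 (Nat.zero_le _), a1], by rw [h4, b2], h5⟩

theorem Ch.orbit (h : Y → Y) {δ : ℝ} (hδ : 0 < δ) (m : ℕ) (p : Y) : Ch h δ m p (h^[m] p) :=
  ⟨fun i => h^[i] p, rfl, rfl, fun i _ => by
    show dist (h (h^[i] p)) (h^[i + 1] p) < δ
    rw [Function.iterate_succ_apply', dist_self]
    exact hδ⟩

/-- a return is a loop -/
theorem Ch.ret (h : Y → Y) {δ : ℝ} (hδ : 0 < δ) (m : ℕ) (hm : 1 ≤ m) (p : Y)
    (hp : dist (h^[m] p) p < δ) : Ch h δ m p p := by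
  refine ⟨fun i => if i < m then h^[i] p else p, ?_, ?_, fun i hi => ?_⟩
  · have h1 : 0 < m := by omega
    simp only [h1, if_true]
    rfl
  · simp only [lt_irrefl, if_false]
  · simp only [hi, if_true]
    rw [← Function.iterate_succ_apply' h]
    split_ifs with h1
    · rw [dist_self]
      exact hδ
    · have h2 : i.succ = m := by omega
      rw [h2]
      exact hp

theorem loops {h : Y → Y} (hT : ChainTrans h) {δ : ℝ} (hδ : 0 < δ) (q : Y) :
    ∃ g L : ℕ, (∀ (p : Y) (m : ℕ), Ch h δ m p p → g ∣ m) ∧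
      ∀ m : ℕ, L ≤ m → g ∣ m → Ch h δ m q q := by
  obtain ⟨A, hA⟩ : ∃ A : AddSubmonoid ℕ, (A : Set ℕ) = {m | Ch h δ m q q} :=
    ⟨{ carrier := {m | Ch h δ m q q}
       add_mem' := fun h1 h2 => Ch.trans h1 h2
       zero_mem' := ⟨fun _ => q, rfl, rfl, fun i hi => absurd hi (Nat.not_lt_zero i)⟩ }, rfl⟩
  have hAm : ∀ m, m ∈ A ↔ Ch h δ m q q := by
    intro m
    rw [← SetLike.mem_coe, hA]
    rfl
  obtain ⟨L, hL⟩ := Nat.exists_mem_closure_of_ge (A : Set ℕ)
  refine ⟨Nat.setGcd (A : Set ℕ), L, fun p m hm => ?_, fun m hm hg => ?_⟩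
  · obtain ⟨a, w, -, a1, a2, a3⟩ := hT δ hδ q p
    obtain ⟨b, w', -, b1, b2, b3⟩ := hT δ hδ p q
    have h1 : Ch h δ a q p := ⟨w, a1, a2, a3⟩
    have h2 : Ch h δ b p q := ⟨w', b1, b2, b3⟩
    have h3 : Nat.setGcd (A : Set ℕ) ∣ a + b := Nat.setGcd_dvd_of_mem ((hAm _).2 (h1.trans h2))
    have h4 : Nat.setGcd (A : Set ℕ) ∣ a + m + b :=
      Nat.setGcd_dvd_of_mem ((hAm _).2 ((h1.trans hm).trans h2))
    have h5 : a + m + b = (a + b) + m := by omega
    rw [h5] at h4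
    exact (Nat.dvd_add_right h3).1 h4
  · have h1 := hL m hm hg
    rw [AddSubmonoid.closure_eq] at h1
    exact (hAm m).1 h1

end chains

section

variable {Y : Type*} [MetricSpace Y] {h : Y ≃ₜ Y}

/-- periodic points are dense -/
theorem dense_per (hs : PerShadow h) (hT : ChainTrans h) (y : Y) (ε : ℝ) (hε : 0 < ε) :
    ∃ (q : Y) (b : ℕ), 1 ≤ b ∧ h^[b] q = q ∧ dist q y < ε := by
  obtain ⟨δ, hδ, H⟩ := hs ε hε
  obtain ⟨m, w, hm, hw0, hw1, hw2⟩ := hT δ hδ y y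
  obtain ⟨q, hq, hq2⟩ := H m w hm (hw1.trans hw0.symm) hw2
  refine ⟨q, m, hm, hq, ?_⟩
  have := hq2 0 (by omega)
  rwa [hw0] at this

/-- there is a periodic point whose orbit does not contain `p` -/
theorem exists_other [Infinite Y] (hs : PerShadow h) (hT : ChainTrans h) (p : Y) :
    ∃ (q : Y) (b : ℕ), 1 ≤ b ∧ h^[b] q = q ∧ ∀ i : ℕ, h^[i] q ≠ p := by
  by_contra hcon
  push Not at hcon
  have hper : ∃ a : ℕ, 1 ≤ a ∧ h^[a] p = p := by
    obtain ⟨q, b, hb, hq, -⟩ := dense_per hs hT p 1 one_pos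
    obtain ⟨i, hi⟩ := hcon q b hb hq
    refine ⟨b, hb, ?_⟩
    rw [← hi, ← Function.iterate_add_apply, add_comm, Function.iterate_add_apply, hq]
  obtain ⟨a, ha, hpa⟩ := hper
  have horb : ∀ (q : Y) (b : ℕ), 1 ≤ b → h^[b] q = q → q ∈ Set.range fun i : ℕ => h^[i] p := by
    intro q b hb hq
    obtain ⟨j, hj⟩ := hcon q b hb hq
    refine ⟨b * j - j, ?_⟩
    change h^[b * j - j] p = q
    have h1 : j ≤ b * j := Nat.le_mul_of_pos_left j (by omega)
    rw [← hj, ← Function.iterate_add_apply, Nat.sub_add_cancel h1, Function.iterate_mul]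
    exact Function.iterate_fixed hq j
  have hfin := Pool.Agent.W816.SC.orbit_finite ha hpa
  have htop : ∀ y : Y, y ∈ Set.range fun i : ℕ => h^[i] p := by
    intro y
    have hcl : IsClosed (Set.range fun i : ℕ => h^[i] p) := hfin.isClosed
    rw [← hcl.closure_eq, Metric.mem_closure_iff]
    intro ε hε
    obtain ⟨q, b, hb, hq, hd⟩ := dense_per hs hT y ε hε
    exact ⟨q, horb q b hb hq, by rw [dist_comm]; exact hd⟩
  have hfin' : Finite Y := by
    rw [← Set.finite_univ_iff]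
    exact hfin.subset fun y _ => htop y
  exact not_finite Y

/-- the distance of `y` from a periodic orbit -/
theorem orbit_far {q y : Y} {b : ℕ} (hb : 1 ≤ b) (hq : h^[b] q = q) (hqy : ∀ i : ℕ, h^[i] q ≠ y) :
    ∃ c : ℝ, 0 < c ∧ ∀ i : ℕ, c ≤ dist (h^[i] q) y := by
  obtain ⟨i0, hi0, hmin⟩ := Finset.exists_min_image (Finset.range b)
    (fun i => dist (h^[i] q) y) ⟨0, Finset.mem_range.2 (by omega)⟩
  refine ⟨dist (h^[i0] q) y, dist_pos.2 (hqy i0), fun i => ?_⟩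
  rw [Pool.Agent.W816.SC.iter_mod hq i]
  exact hmin _ (Finset.mem_range.2 (Nat.mod_lt _ (by omega)))

/-- sums over periodic orbits -/
theorem sum_per {E : Type*} [NormedAddCommGroup E] [NormedSpace ℝ E] (c : Y → E) {q : Y} {b : ℕ}
    (hq : h^[b] q = q) (k : ℕ) :
    birkhoffSum h c (k * b) q = (k : ℝ) • birkhoffSum h c b q := by
  induction k with
  | zero => rw [Nat.zero_mul, birkhoffSum_zero, Nat.cast_zero, zero_smul]
  | succ k ih =>
    have h1 : h^[k * b] q = q := by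
      rw [mul_comm, Function.iterate_mul]
      exact Function.iterate_fixed hq k
    rw [Nat.add_mul, one_mul, birkhoffSum_add, ih, h1]
    push_cast
    rw [add_smul, one_smul]

/-- closed orbits of every long period which follow the orbit of `q`, start near `y₀` and do not come back
near `y₀` before the end of the period -/
theorem flex [CompactSpace Y] {E : Type*} [NormedAddCommGroup E] [NormedSpace ℝ E]
    (hs : PerShadow h) (hT : ChainTrans h) (y₀ q : Y) (b : ℕ) (hb : 1 ≤ b) (hq : h^[b] q = q)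
    (hqy : ∀ i : ℕ, h^[i] q ≠ y₀) (c : Y → E) (hc : Continuous c) (η : ℝ) (hη : 0 < η) :
    ∃ δ ρ C : ℝ, ∃ M : ℕ, 0 < δ ∧ 0 < ρ ∧ ∀ m ≥ M, ∀ y1 : Y, dist (h^[m] y1) y1 < δ →
      ∃ y' : Y, dist y' y₀ < η ∧ h^[m] y' = y' ∧
        (∀ i, 0 < i → i < m → ρ ≤ dist (h^[i] y') y') ∧
        ‖birkhoffSum h c m y' - (m : ℝ) • ((b : ℝ)⁻¹ • birkhoffSum h c b q)‖ ≤ η * m + C := by
  obtain ⟨c₀, hc₀, hcq⟩ := orbit_far hb hq hqy
  have huc := CompactSpace.uniformContinuous_of_continuous hc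
  obtain ⟨e, he, hec⟩ := Metric.uniformContinuous_iff.1 huc η hη
  obtain ⟨B, hB⟩ : ∃ B : ℝ, ∀ y, ‖c y‖ ≤ B := by
    obtain ⟨B, hB⟩ := isCompact_univ.exists_bound_of_continuousOn hc.continuousOn
    exact ⟨B, fun y => hB y (mem_univ y)⟩
  obtain ⟨e₁, he₁⟩ : ∃ e₁ : ℝ, e₁ = min (min η (c₀ / 4)) e := ⟨_, rfl⟩
  have he₁0 : 0 < e₁ := by rw [he₁]; exact lt_min (lt_min hη (by positivity)) he
  have he₁η : e₁ ≤ η := by rw [he₁]; exact (min_le_left _ _).trans (min_le_left _ _)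
  have he₁c : e₁ ≤ c₀ / 4 := by rw [he₁]; exact (min_le_left _ _).trans (min_le_right _ _)
  have he₁e : e₁ ≤ e := by rw [he₁]; exact min_le_right _ _
  obtain ⟨δ, hδ, H⟩ := hs e₁ he₁0
  obtain ⟨g, L, hg1, hg2⟩ := loops hT hδ q
  obtain ⟨l1, w1, -, hw10, hw11, hw12⟩ := hT δ hδ y₀ q
  obtain ⟨l2, w2', -, hw20, hw21, hw22⟩ := hT δ hδ q y₀
  have hl2 : Ch h δ l2 q y₀ := ⟨w2', hw20, hw21, hw22⟩
  obtain ⟨R2, hR2⟩ : ∃ R2 : ℕ, R2 = L + b + l2 := ⟨_, rfl⟩
  obtain ⟨R, hR⟩ : ∃ R : ℕ, R = l1 + R2 + 1 := ⟨_, rfl⟩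
  obtain ⟨τ, hτ⟩ : ∃ τ : E, τ = (b : ℝ)⁻¹ • birkhoffSum h c b q := ⟨_, rfl⟩
  -- the compact set
  obtain ⟨A, hA⟩ : ∃ A : Set Y, A = {y | dist y y₀ ≤ c₀ / 4 ∧ ∀ i ∈ Finset.Icc R (2 * R),
    3 * c₀ / 4 ≤ dist (h^[i] y) y₀} := ⟨_, rfl⟩
  have hAc : IsClosed A := by
    rw [hA]
    apply IsClosed.inter
    · exact isClosed_le (continuous_id.dist continuous_const) continuous_const
    · have h1 : {y : Y | ∀ i ∈ Finset.Icc R (2 * R), 3 * c₀ / 4 ≤ dist (h^[i] y) y₀} =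
          ⋂ i ∈ Finset.Icc R (2 * R), {y : Y | 3 * c₀ / 4 ≤ dist (h^[i] y) y₀} := by
        ext y
        simp only [Set.mem_ofPred_eq, mem_iInter]
      change IsClosed {y : Y | ∀ i ∈ Finset.Icc R (2 * R), 3 * c₀ / 4 ≤ dist (h^[i] y) y₀}
      rw [h1]
      exact isClosed_biInter fun i _ => isClosed_le continuous_const
        ((h.continuous.iterate i).dist continuous_const)
  have hAp : ∀ y ∈ A, ∀ j, 0 < j → j < R → h^[j] y ≠ y := by
    intro y hy j hj hjR hjy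
    rw [hA] at hy
    obtain ⟨k, hk1, hk2⟩ : ∃ k : ℕ, R ≤ j * k ∧ j * k ≤ 2 * R := by
      refine ⟨R / j + 1, ?_, ?_⟩
      · have h1 := Nat.lt_mul_div_succ R hj
        exact h1.le
      · have h1 := Nat.mul_div_le R j
        rw [mul_add, mul_one]
        omega
    have h1 := hy.2 (j * k) (Finset.mem_Icc.2 ⟨hk1, hk2⟩)
    rw [Function.iterate_mul, Function.iterate_fixed hjy k] at h1
    have h2 := hy.1
    linarith
  have hsymm : ∀ (j : ℕ) (y : Y), h.symm^[j] (h^[j] y) = y := fun j y => h.toEquiv.left_inv.iterate j y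
  have hex1 : ∀ j ∈ Finset.Ico 1 R, ∃ ρ : ℝ, 0 < ρ ∧ ∀ y ∈ A, ρ ≤ dist (h^[j] y) y ∧
      ρ ≤ dist (h.symm^[j] y) y := by
    intro j hj
    rw [Finset.mem_Ico] at hj
    obtain ⟨ρ1, h1, h2⟩ := hAc.isCompact.exists_forall_le' (f := fun y => dist (h^[j] y) y)
      ((h.continuous.iterate j).dist continuous_id).continuousOn (a := 0)
      (fun y hy => dist_pos.2 (hAp y hy j (by omega) hj.2))
    obtain ⟨ρ2, h3, h4⟩ := hAc.isCompact.exists_forall_le' (f := fun y => dist (h.symm^[j] y) y)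
      ((h.symm.continuous.iterate j).dist continuous_id).continuousOn (a := 0)
      (fun y hy => dist_pos.2 (fun h5 => hAp y hy j (by omega) hj.2 (by
        have h6 : h^[j] (h.symm^[j] y) = y := h.toEquiv.right_inv.iterate j y
        rw [h5] at h6
        exact h6)))
    exact ⟨min ρ1 ρ2, lt_min h1 h3, fun y hy => ⟨(min_le_left _ _).trans (h2 y hy),
      (min_le_right _ _).trans (h4 y hy)⟩⟩
  obtain ⟨ρ, hρ, hρA⟩ : ∃ ρ : ℝ, 0 < ρ ∧ ∀ j ∈ Finset.Ico 1 R, ∀ y ∈ A, ρ ≤ dist (h^[j] y) y ∧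
      ρ ≤ dist (h.symm^[j] y) y := by
    have hex2 : ∀ j : ℕ, ∃ ρ : ℝ, 0 < ρ ∧ (j ∈ Finset.Ico 1 R → ∀ y ∈ A, ρ ≤ dist (h^[j] y) y ∧
        ρ ≤ dist (h.symm^[j] y) y) := by
      intro j
      by_cases hj : j ∈ Finset.Ico 1 R
      · obtain ⟨ρ, h1, h2⟩ := hex1 j hj
        exact ⟨ρ, h1, fun _ => h2⟩
      · exact ⟨1, one_pos, fun h => absurd h hj⟩
    choose r hr hr2 using hex2
    obtain ⟨ρ, h1, h2⟩ := Pool.Agent.W216.SC.exists_pos_le (Finset.Ico 1 R) r (fun i _ => hr i)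
    exact ⟨ρ, h1, fun j hj y hy => ⟨(h2 j hj).trans (hr2 j hj y hy).1,
      (h2 j hj).trans (hr2 j hj y hy).2⟩⟩
  refine ⟨δ, min ρ (c₀ / 2), ((l1 + R2 : ℕ) : ℝ) * (B + ‖τ‖), 3 * R, hδ, lt_min hρ (by positivity),
    fun m hm y1 hy1 => ?_⟩
  -- the pseudo-orbit
  have hgm : g ∣ m := hg1 y1 m (Ch.ret h hδ m (by omega) y1 hy1)
  obtain ⟨k, hk⟩ : ∃ k : ℕ, k = (m - l1 - l2 - L) / b := ⟨_, rfl⟩
  obtain ⟨s, hs'⟩ : ∃ s : ℕ, s = m - l1 - l2 - k * b := ⟨_, rfl⟩
  have hkb : k * b ≤ m - l1 - l2 - L := by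
    rw [hk]
    exact Nat.div_mul_le_self _ _
  have hkb2 : m - l1 - l2 - L < k * b + b := by
    have h1 := Nat.lt_mul_div_succ (m - l1 - l2 - L) (show 0 < b by omega)
    rw [← hk] at h1
    have h2 : b * (k + 1) = k * b + b := by ring
    omega
  have hsL : L ≤ s := by omega
  have hsb : s ≤ L + b := by omega
  have hm' : m = l1 + (k * b + (s + l2)) := by omega
  have hkq : h^[k * b] q = q := by
    rw [mul_comm, Function.iterate_mul]
    exact Function.iterate_fixed hq k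
  have hgs : g ∣ s := by
    have h1 : Ch h δ (k * b) q q := by
      have h2 := Ch.orbit h hδ (k * b) q
      rwa [hkq] at h2
    have h3 : Ch h δ (l1 + (k * b + l2)) y₀ y₀ :=
      Ch.trans ⟨w1, hw10, hw11, hw12⟩ (h1.trans hl2)
    have h4 := hg1 _ _ h3
    have h5 : m = (l1 + (k * b + l2)) + s := by omega
    rw [h5] at hgm
    exact (Nat.dvd_add_right h4).1 hgm
  obtain ⟨w2, hw20, hw21, hw22⟩ := (hg2 s hsL hgs).trans hl2
  obtain ⟨O, hO1, hO2, hO3⟩ := glue (fun a b => dist (h a) b < δ) (w1 := fun i => h^[i] q) (w2 := w2)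
    (a := k * b) (b := s + l2) (fun i _ => by
      show dist (h (h^[i] q)) (h^[i + 1] q) < δ
      rw [Function.iterate_succ_apply', dist_self]
      exact hδ) hw22 (by rw [hw20]; exact hkq)
  obtain ⟨W, hW1, hW2, hW3⟩ := glue (fun a b => dist (h a) b < δ) (w1 := w1) (w2 := O)
    (a := l1) (b := k * b + (s + l2)) hw12 hO3 (by rw [hw11, hO1 0 (Nat.zero_le _)]; rfl)
  rw [← hm'] at hW3
  obtain ⟨y', hy', hy'W⟩ := H m W (by omega) (by
    rw [hW1 0 (Nat.zero_le _), hw10]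
    conv_lhs => rw [hm']
    rw [hW2, hO2, hw21]) hW3
  have h0 := hy'W 0 (by omega)
  rw [hW1 0 (Nat.zero_le _), hw10] at h0
  have h0' : dist y' y₀ < e₁ := h0
  have hWq : ∀ i, l1 ≤ i → i + R2 ≤ m → W i = h^[i - l1] q := by
    intro i hi hi'
    obtain ⟨j, rfl⟩ := Nat.exists_eq_add_of_le hi
    rw [hW2, hO1 j (by omega), Nat.add_sub_cancel_left]
  have hmid : ∀ i, l1 ≤ i → i + R2 ≤ m → 3 * c₀ / 4 ≤ dist (h^[i] y') y₀ := by
    intro i hi hi'
    have h1 := hy'W i (by omega)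
    rw [hWq i hi hi'] at h1
    have h2 := hcq (i - l1)
    have h3 := dist_triangle (h^[i - l1] q) (h^[i] y') y₀
    rw [dist_comm (h^[i - l1] q) (h^[i] y')] at h3
    linarith
  have hyA : y' ∈ A := by
    rw [hA]
    refine ⟨by linarith, fun i hi => ?_⟩
    rw [Finset.mem_Icc] at hi
    exact hmid i (by omega) (by omega)
  refine ⟨y', h0'.trans_le he₁η, hy', fun i hi0 him => ?_, ?_⟩
  · rcases lt_or_ge i R with h1 | h1
    · exact (min_le_left _ _).trans (hρA i (Finset.mem_Ico.2 ⟨hi0, h1⟩) y' hyA).1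
    · rcases lt_or_ge m (i + R) with h2 | h2
      · have h3 := (hρA (m - i) (Finset.mem_Ico.2 ⟨by omega, by omega⟩) y' hyA).2
        have h4 : h.symm^[m - i] y' = h^[i] y' := by
          have h5 : h^[m] y' = h^[m - i] (h^[i] y') := by
            rw [← Function.iterate_add_apply, Nat.sub_add_cancel him.le]
          conv_lhs => rw [← hy', h5]
          exact hsymm (m - i) _
        rw [h4] at h3
        exact (min_le_left _ _).trans h3
      · refine (min_le_right _ _).trans ?_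
        have h3 := hmid i (by omega) (by omega)
        have h4 := dist_triangle (h^[i] y') y' y₀
        linarith
  · rw [← hτ]
    have e1 : birkhoffSum h c m y' - (m : ℝ) • τ =
        ∑ i ∈ Finset.range m, (c (h^[i] y') - c (W i)) + (∑ i ∈ Finset.range m, c (W i) - (m : ℝ) • τ) := by
      rw [Finset.sum_sub_distrib]
      unfold birkhoffSum
      abel
    have e2 : ‖∑ i ∈ Finset.range m, (c (h^[i] y') - c (W i))‖ ≤ η * m := by
      refine (norm_sum_le _ _).trans ?_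
      have h1 : ∀ i ∈ Finset.range m, ‖c (h^[i] y') - c (W i)‖ ≤ η := by
        intro i hi
        rw [← dist_eq_norm]
        exact (hec ((hy'W i (Finset.mem_range.1 hi)).trans_le he₁e)).le
      refine (Finset.sum_le_sum h1).trans ?_
      rw [Finset.sum_const, Finset.card_range, nsmul_eq_mul, mul_comm]
    have e3 : ∑ i ∈ Finset.range m, c (W i) = ∑ i ∈ Finset.range l1, c (w1 i) +
        (birkhoffSum h c (k * b) q + ∑ i ∈ Finset.range (s + l2), c (w2 i)) := by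
      conv_lhs => rw [hm']
      rw [Finset.sum_range_add]
      congr 1
      · apply Finset.sum_congr rfl
        intro i hi
        rw [hW1 i (Finset.mem_range.1 hi).le]
      · simp only [hW2]
        rw [Finset.sum_range_add]
        congr 1
        · unfold birkhoffSum
          apply Finset.sum_congr rfl
          intro i hi
          rw [hO1 i (Finset.mem_range.1 hi).le]
        · simp only [hO2]
    have hb0 : (b : ℝ) ≠ 0 := by
      have : 0 < b := by omega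
      exact_mod_cast this.ne'
    have e4 : birkhoffSum h c (k * b) q = ((k * b : ℕ) : ℝ) • τ := by
      rw [sum_per c hq, hτ, smul_smul]
      congr 1
      push_cast
      field_simp
    have e5 : ∑ i ∈ Finset.range m, c (W i) - (m : ℝ) • τ =
        (∑ i ∈ Finset.range l1, c (w1 i) - (l1 : ℝ) • τ) +
          (∑ i ∈ Finset.range (s + l2), c (w2 i) - ((s + l2 : ℕ) : ℝ) • τ) := by
      rw [e3, e4]
      have h1 : (m : ℝ) = (l1 : ℝ) + (((k * b : ℕ) : ℝ) + ((s + l2 : ℕ) : ℝ)) := by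
        conv_lhs => rw [hm']
        push_cast
        ring
      rw [h1, add_smul, add_smul]
      abel
    have hτ0 := norm_nonneg τ
    have e6 : ∀ (a : ℕ) (v : ℕ → Y), ‖∑ i ∈ Finset.range a, c (v i) - (a : ℝ) • τ‖ ≤
        (a : ℝ) * (B + ‖τ‖) := by
      intro a v
      have h1 : ‖∑ i ∈ Finset.range a, c (v i)‖ ≤ a * B := by
        refine (norm_sum_le _ _).trans ?_
        refine (Finset.sum_le_sum (fun i _ => hB (v i))).trans ?_
        rw [Finset.sum_const, Finset.card_range, nsmul_eq_mul]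
      have h2 : ‖(a : ℝ) • τ‖ = a * ‖τ‖ := by
        rw [norm_smul, Real.norm_of_nonneg (Nat.cast_nonneg a)]
      have h3 := norm_sub_le (∑ i ∈ Finset.range a, c (v i)) ((a : ℝ) • τ)
      rw [h2] at h3
      linarith
    have hB0 : 0 ≤ B := (norm_nonneg _).trans (hB y₀)
    have e7 : ((s + l2 : ℕ) : ℝ) * (B + ‖τ‖) ≤ (R2 : ℝ) * (B + ‖τ‖) := by
      apply mul_le_mul_of_nonneg_right _ (by linarith)
      have : s + l2 ≤ R2 := by omega
      exact_mod_cast this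
    rw [e1]
    refine (norm_add_le _ _).trans (add_le_add e2 ?_)
    rw [e5]
    refine (norm_add_le _ _).trans ?_
    have h1 := e6 l1 w1
    have h2 := e6 (s + l2) w2
    push_cast at h1 h2 e7 ⊢
    linarith

end

end Run7.h619.SK
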