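import Pool.Agent.Run7.h619.SK.Main

/-!
# Closed orbits of chain transitive flows with the periodic shadowing property
-/

set_option autoImplicit false
set_option linter.unusedSectionVars false

open Filter Set Metric
open scoped Topology

universe u v w

namespace Run7.h619.SK

open Pool.Agent.W564.SC

/-- a continuous flow on `Y` -/
structure IsCFlow {Y : Type*} [TopologicalSpace Y] (g : ℝ → Y → Y) : Prop where
  cont : Continuous fun q : ℝ × Y => g q.1 q.2
  zero : ∀ y, g 0 y = y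
  add : ∀ s t y, g (s + t) y = g s (g t y)

/-- the periodic shadowing property of flows -/
def FlowShadow {Y : Type*} [MetricSpace Y] (g : ℝ → Y → Y) : Prop :=
  ∀ η : ℝ, 0 < η → ∃ δ : ℝ, 0 < δ ∧ ∀ (m : ℕ) (w : ℕ → Y), 1 ≤ m → w m = w 0 →
    (∀ i < m, dist (g 1 (w i)) (w (i + 1)) < δ) →
    ∃ (p : Y) (t : ℕ → ℝ), t 0 = 0 ∧ g (t m) p = p ∧
      ∀ i < m, |t (i + 1) - t i - 1| < η ∧ dist (g (t i) p) (w i) < η

/-- an additive cocycle over a flow -/
structure IsCoc {Y : Type*} [TopologicalSpace Y] {E : Type*} [NormedAddCommGroup E]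
    (g : ℝ → Y → Y) (C : ℝ → Y → E) : Prop where
  cont : Continuous fun q : ℝ × Y => C q.1 q.2
  add : ∀ s t y, C (s + t) y = C t y + C s (g t y)

section

variable {Y : Type w} [MetricSpace Y] [CompactSpace Y] {g : ℝ → Y → Y} {E : Type*}
  [NormedAddCommGroup E] [NormedSpace ℝ E] {C : ℝ → Y → E}

theorem IsCFlow.cont_time (hg : IsCFlow g) (y : Y) : Continuous fun t => g t y :=
  hg.cont.comp (continuous_id.prodMk continuous_const)

theorem IsCFlow.cont_map (hg : IsCFlow g) (t : ℝ) : Continuous (g t) :=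
  hg.cont.comp (continuous_const.prodMk continuous_id)

theorem IsCoc.zero (hC : IsCoc g C) (hg : IsCFlow g) (y : Y) : C 0 y = 0 := by
  have h1 := hC.add 0 0 y
  rw [add_zero, hg.zero] at h1
  exact (left_eq_add.1 h1)

theorem per_mul (hg : IsCFlow g) {P : ℝ} {q : Y} (hq : g P q = q) (k : ℕ) : g (k * P) q = q := by
  induction k with
  | zero => rw [Nat.cast_zero, zero_mul, hg.zero]
  | succ k ih =>
    have e : ((k + 1 : ℕ) : ℝ) * P = P + k * P := by push_cast; ring
    rw [e, hg.add, ih, hq]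

theorem coc_mul (hg : IsCFlow g) (hC : IsCoc g C) {P : ℝ} {q : Y} (hq : g P q = q) (k : ℕ) :
    C (k * P) q = (k : ℝ) • C P q := by
  induction k with
  | zero => rw [Nat.cast_zero, zero_mul, hC.zero hg, zero_smul]
  | succ k ih =>
    have e : ((k + 1 : ℕ) : ℝ) * P = P + k * P := by push_cast; ring
    rw [e, hC.add, ih, per_mul hg hq]
    push_cast
    rw [add_smul, one_smul]

/-- sums of a cocycle over steps -/
theorem coc_sum (hg : IsCFlow g) (hC : IsCoc g C) (t : ℕ → ℝ) (h0 : t 0 = 0) (y : Y) (m : ℕ) :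
    C (t m) y = ∑ i ∈ Finset.range m, C (t (i + 1) - t i) (g (t i) y) := by
  induction m with
  | zero => rw [h0, hC.zero hg, Finset.range_zero, Finset.sum_empty]
  | succ m ih =>
    rw [Finset.sum_range_succ, ← ih]
    have e : t (m + 1) = (t (m + 1) - t m) + t m := by ring
    conv_lhs => rw [e]
    rw [hC.add]

/-- uniform continuity of the flow for bounded times -/
theorem flow_unif (hg : IsCFlow g) (K : ℝ) (η : ℝ) (hη : 0 < η) : ∃ e : ℝ, 0 < e ∧
    ∀ s t : ℝ, |s| ≤ K → |t| ≤ K → |s - t| < e → ∀ a b : Y, dist a b < e →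
      dist (g s a) (g t b) < η := by
  have hc : IsCompact (Icc (-K) K ×ˢ (univ : Set Y)) := isCompact_Icc.prod isCompact_univ
  have huc := hc.uniformContinuousOn_of_continuous hg.cont.continuousOn
  rw [Metric.uniformContinuousOn_iff] at huc
  obtain ⟨e, he, h⟩ := huc η hη
  refine ⟨e, he, fun s t hs ht hst a b hab => ?_⟩
  exact h (s, a) ⟨abs_le.1 hs, mem_univ a⟩ (t, b) ⟨abs_le.1 ht, mem_univ b⟩ (by
    rw [Prod.dist_eq]
    exact max_lt (by rw [Real.dist_eq]; exact hst) hab)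

theorem coc_unif (hC : IsCoc g C) (K : ℝ) (η : ℝ) (hη : 0 < η) : ∃ e : ℝ, 0 < e ∧
    ∀ s t : ℝ, |s| ≤ K → |t| ≤ K → |s - t| < e → ∀ a b : Y, dist a b < e →
      ‖C s a - C t b‖ < η := by
  have hc : IsCompact (Icc (-K) K ×ˢ (univ : Set Y)) := isCompact_Icc.prod isCompact_univ
  have huc := hc.uniformContinuousOn_of_continuous hC.cont.continuousOn
  rw [Metric.uniformContinuousOn_iff] at huc
  obtain ⟨e, he, h⟩ := huc η hη
  refine ⟨e, he, fun s t hs ht hst a b hab => ?_⟩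
  rw [← dist_eq_norm]
  exact h (s, a) ⟨abs_le.1 hs, mem_univ a⟩ (t, b) ⟨abs_le.1 ht, mem_univ b⟩ (by
    rw [Prod.dist_eq]
    exact max_lt (by rw [Real.dist_eq]; exact hst) hab)

theorem coc_bound (hC : IsCoc g C) (K : ℝ) : ∃ B : ℝ, 0 ≤ B ∧ ∀ s : ℝ, |s| ≤ K → ∀ y, ‖C s y‖ ≤ B := by
  have hc : IsCompact (Icc (-K) K ×ˢ (univ : Set Y)) := isCompact_Icc.prod isCompact_univ
  obtain ⟨B, hB⟩ := hc.exists_bound_of_continuousOn hC.cont.continuousOn
  exact ⟨max B 0, le_max_right _ _, fun s hs y =>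
    (hB (s, y) ⟨abs_le.1 hs, mem_univ y⟩).trans (le_max_left _ _)⟩

/-- the times of a shadowing orbit -/
theorem times {t : ℕ → ℝ} {e : ℝ} (h0 : t 0 = 0) {m : ℕ} (ht : ∀ i < m, |t (i + 1) - t i - 1| < e) :
    ∀ i ≤ m, |t i - i| ≤ e * i := by
  intro i
  induction i with
  | zero =>
    intro _
    rw [h0, Nat.cast_zero, sub_zero, abs_zero, mul_zero]
  | succ i ih =>
    intro hi
    have h1 := ih (by omega)
    have h2 := (ht i (by omega)).le
    have h3 : t (i + 1) - ((i + 1 : ℕ) : ℝ) = (t (i + 1) - t i - 1) + (t i - i) := by push_cast; ring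
    rw [h3]
    refine (abs_add_le _ _).trans ?_
    push_cast
    linarith

theorem step_of {t : ℕ → ℝ} {a : ℕ} : ∀ n : ℕ, ∀ s : ℝ, t a ≤ s → s ≤ t (a + (n + 1)) →
    ∃ i, a ≤ i ∧ i < a + (n + 1) ∧ t i ≤ s ∧ s ≤ t (i + 1) := by
  intro n
  induction n with
  | zero =>
    intro s h1 h2
    exact ⟨a, le_rfl, by omega, h1, h2⟩
  | succ n ih =>
    intro s h1 h2
    rcases le_or_gt s (t (a + (n + 1))) with h3 | h3
    · obtain ⟨i, h4, h5, h6, h7⟩ := ih s h1 h3
      exact ⟨i, h4, by omega, h6, h7⟩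
    · exact ⟨a + (n + 1), by omega, by omega, h3.le, h2⟩

/-- the distance of `y` from a closed orbit -/
theorem corbit_far (hg : IsCFlow g) {q y : Y} {P : ℝ} (hP : 0 < P) (hq : g P q = q)
    (hqy : ∀ t, g t q ≠ y) : ∃ c : ℝ, 0 < c ∧ ∀ t, c ≤ dist (g t q) y := by
  obtain ⟨c, hc, h1⟩ := (isCompact_Icc (a := (0 : ℝ)) (b := P)).exists_forall_le'
    (f := fun t => dist (g t q) y) ((hg.cont_time q).dist continuous_const).continuousOn (a := 0)
    (fun t _ => dist_pos.2 (hqy t))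
  refine ⟨c, hc, fun t => ?_⟩
  -- reduce modulo the period
  obtain ⟨k, hk⟩ : ∃ k : ℤ, k = ⌊t / P⌋ := ⟨_, rfl⟩
  have h2 : g t q = g (t - k * P) q := by
    have h3 : g (k * P) q = q := by
      rcases Int.eq_nat_or_neg k with ⟨j, hj | hj⟩
      · rw [hj]
        push_cast
        exact per_mul hg hq j
      · have h4 : g ((j : ℝ) * P) q = q := per_mul hg hq j
        rw [hj]
        push_cast
        have h5 : g (-(j : ℝ) * P) (g ((j : ℝ) * P) q) = q := by
          rw [← hg.add]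
          have : -(j : ℝ) * P + (j : ℝ) * P = 0 := by ring
          rw [this, hg.zero]
        rwa [h4] at h5
    conv_lhs => rw [show t = (t - k * P) + k * P by ring]
    rw [hg.add, h3]
  rw [h2]
  apply h1
  have h3 := Int.floor_le (t / P)
  have h4 := Int.lt_floor_add_one (t / P)
  rw [← hk] at h3 h4
  rw [le_div_iff₀ hP] at h3
  rw [div_lt_iff₀ hP] at h4
  exact ⟨by linarith, by linarith⟩

/-- closed orbits which follow the orbit of `q`, start near `y₀` and do not come back near `y₀` before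
the end of the period -/
theorem flexF (hg : IsCFlow g) (hC : IsCoc g C) (hs : FlowShadow g) (hT : ChainTrans (g 1))
    (y₀ q : Y) (P : ℝ) (hP : 0 < P) (hq : g P q = q) (hqy : ∀ t, g t q ≠ y₀) (η : ℝ) (hη : 0 < η)
    (τ₀ : ℝ) (hτ₀ : 0 < τ₀) :
    ∃ ρ R : ℝ, 0 < ρ ∧ 0 < R ∧ ∀ T : ℝ, R ≤ T → ∃ (y' : Y) (P' : ℝ), dist y' y₀ < η ∧
      g P' y' = y' ∧ |P' - T| ≤ η * T + R ∧
      (∀ t, τ₀ ≤ t → t ≤ P' - τ₀ → ρ ≤ dist (g t y') y') ∧
      ‖C P' y' - (T / P) • C P q‖ ≤ η * T + R := by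
  obtain ⟨c₀, hc₀, hcq⟩ := corbit_far hg hP hq hqy
  obtain ⟨η', hη'⟩ : ∃ η' : ℝ, η' = η / 4 := ⟨_, rfl⟩
  have hη'0 : 0 < η' := by rw [hη']; positivity
  obtain ⟨e2, he2, hu2⟩ := flow_unif hg 2 (c₀ / 4) (by positivity)
  obtain ⟨e3, he3, hu3⟩ := coc_unif hC 2 η' hη'0
  obtain ⟨B, hB0, hB⟩ := coc_bound hC 2
  obtain ⟨e₁, he₁⟩ : ∃ e₁ : ℝ, e₁ = min (min (min η' (c₀ / 4)) (min e2 (e3 / 2))) (1 / 2) := ⟨_, rfl⟩
  have he₁0 : 0 < e₁ := by
    rw [he₁]
    exact lt_min (lt_min (lt_min hη'0 (by positivity)) (lt_min he2 (by positivity))) (by norm_num)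
  have he₁η : e₁ ≤ η' := by
    rw [he₁]
    exact (min_le_left _ _).trans ((min_le_left _ _).trans (min_le_left _ _))
  have he₁c : e₁ ≤ c₀ / 4 := by
    rw [he₁]
    exact (min_le_left _ _).trans ((min_le_left _ _).trans (min_le_right _ _))
  have he₁2 : e₁ ≤ e2 := by
    rw [he₁]
    exact (min_le_left _ _).trans ((min_le_right _ _).trans (min_le_left _ _))
  have he₁3 : e₁ ≤ e3 / 2 := by
    rw [he₁]
    exact (min_le_left _ _).trans ((min_le_right _ _).trans (min_le_right _ _))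
  have he₁h : e₁ ≤ 1 / 2 := by rw [he₁]; exact min_le_right _ _
  obtain ⟨δ, hδ, H⟩ := hs e₁ he₁0
  obtain ⟨e4, he4, hu4⟩ := flow_unif hg 2 δ hδ
  -- the periodic orbit as a pseudo-orbit
  obtain ⟨D, hD⟩ : ∃ D : ℝ, D = ‖C P q‖ / P + 1 := ⟨_, rfl⟩
  have hD1 : 1 ≤ D := by
    rw [hD]
    have : 0 ≤ ‖C P q‖ / P := by positivity
    linarith
  obtain ⟨μ, hμ⟩ : ∃ μ : ℝ, μ = min (min e4 (e3 / 2)) (min (η' / D) 1) := ⟨_, rfl⟩
  have hμ0 : 0 < μ := by
    rw [hμ]
    exact lt_min (lt_min he4 (by positivity)) (lt_min (by positivity) one_pos)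
  have hμ4 : μ ≤ e4 := by rw [hμ]; exact (min_le_left _ _).trans (min_le_left _ _)
  have hμ3 : μ ≤ e3 / 2 := by rw [hμ]; exact (min_le_left _ _).trans (min_le_right _ _)
  have hμD : μ ≤ η' / D := by rw [hμ]; exact (min_le_right _ _).trans (min_le_left _ _)
  have hμ1 : μ ≤ 1 := by rw [hμ]; exact (min_le_right _ _).trans (min_le_right _ _)
  obtain ⟨j, hj⟩ := exists_nat_ge ((1 / μ + 1) / P)
  have hjP : 1 / μ + 1 ≤ j * P := by rwa [div_le_iff₀ hP] at hj
  obtain ⟨b, hb⟩ : ∃ b : ℕ, b = ⌊(j : ℝ) * P⌋₊ := ⟨_, rfl⟩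
  have hμi : 1 ≤ 1 / μ := by rw [le_div_iff₀ hμ0]; linarith
  have hjP0 : 0 ≤ (j : ℝ) * P := by positivity
  have hb1 : (b : ℝ) ≤ j * P := by rw [hb]; exact Nat.floor_le hjP0
  have hb2 : (j : ℝ) * P < b + 1 := by rw [hb]; exact Nat.lt_floor_add_one _
  have hbμ : 1 / μ < b := by linarith
  have hb0 : (0 : ℝ) < b := by linarith
  obtain ⟨β, hβ⟩ : ∃ β : ℝ, β = j * P / b := ⟨_, rfl⟩
  have hbβ : (b : ℝ) * β = j * P := by rw [hβ]; field_simp
  have hβ1 : 1 ≤ β := by rw [hβ, le_div_iff₀ hb0]; linarith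
  have hβμ : β - 1 < μ := by
    have h1 : β - 1 = (j * P - b) / b := by rw [hβ]; field_simp
    rw [h1, div_lt_iff₀ hb0]
    rw [div_lt_iff₀ hμ0] at hbμ
    linarith
  have hβ2 : |β| ≤ 2 := by rw [abs_le]; constructor <;> linarith
  have hβa : |1 - β| < μ := by rw [abs_lt]; constructor <;> linarith
  -- the chains
  obtain ⟨l1, w1, -, hw10, hw11, hw12⟩ := hT δ hδ y₀ q
  obtain ⟨l2, w2, -, hw20, hw21, hw22⟩ := hT δ hδ q y₀
  obtain ⟨R1, hR1⟩ : ∃ R1 : ℝ, R1 = 2 * (l1 + l2 : ℕ) + τ₀ + 1 := ⟨_, rfl⟩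
  have hl12 : (0 : ℝ) ≤ ((l1 + l2 : ℕ) : ℝ) := Nat.cast_nonneg _
  have hR1τ : τ₀ < R1 := by rw [hR1]; linarith
  have hR10 : 0 < R1 := hτ₀.trans hR1τ
  -- the compact set
  obtain ⟨A, hA⟩ : ∃ A : Set Y, A = {y | dist y y₀ ≤ c₀ / 4 ∧ ∀ t ∈ Icc R1 (2 * R1),
    3 * c₀ / 4 ≤ dist (g t y) y₀} := ⟨_, rfl⟩
  have hAc : IsClosed A := by
    rw [hA]
    apply IsClosed.inter
    · exact isClosed_le (continuous_id.dist continuous_const) continuous_const
    · have h1 : {y : Y | ∀ t ∈ Icc R1 (2 * R1), 3 * c₀ / 4 ≤ dist (g t y) y₀} =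
          ⋂ t ∈ Icc R1 (2 * R1), {y : Y | 3 * c₀ / 4 ≤ dist (g t y) y₀} := by
        ext y
        simp only [Set.mem_ofPred_eq, mem_iInter]
      change IsClosed {y : Y | ∀ t ∈ Icc R1 (2 * R1), 3 * c₀ / 4 ≤ dist (g t y) y₀}
      rw [h1]
      exact isClosed_biInter fun t _ => isClosed_le continuous_const
        ((hg.cont_map t).dist continuous_const)
  have hAp : ∀ y ∈ A, ∀ t, 0 < t → t ≤ R1 → g t y ≠ y := by
    intro y hy t ht htR hty
    rw [hA] at hy
    obtain ⟨k, hk⟩ : ∃ k : ℕ, k = ⌈R1 / t⌉₊ := ⟨_, rfl⟩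
    have hk1 : R1 ≤ k * t := by
      have := Nat.le_ceil (R1 / t)
      rw [← hk, div_le_iff₀ ht] at this
      exact this
    have hk2 : k * t ≤ 2 * R1 := by
      have h1 := Nat.ceil_lt_add_one (show 0 ≤ R1 / t by positivity)
      rw [← hk] at h1
      have h2 : (k : ℝ) * t < (R1 / t + 1) * t := mul_lt_mul_of_pos_right h1 ht
      have h3 : (R1 / t + 1) * t = R1 + t := by field_simp
      linarith
    have h1 := hy.2 (k * t) ⟨hk1, hk2⟩
    rw [per_mul hg hty] at h1
    have h2 := hy.1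
    linarith
  obtain ⟨ρ1, hρ1, hρ1A⟩ := (isCompact_Icc (a := τ₀) (b := R1)).prod hAc.isCompact
    |>.exists_forall_le' (f := fun z : ℝ × Y => dist (g z.1 z.2) z.2)
      (hg.cont.dist continuous_snd).continuousOn (a := 0)
      (fun z hz => dist_pos.2 (hAp z.2 hz.2 z.1 (hτ₀.trans_le hz.1.1) hz.1.2))
  obtain ⟨ρ2, hρ2, hρ2A⟩ := (isCompact_Icc (a := τ₀) (b := R1)).prod hAc.isCompact
    |>.exists_forall_le' (f := fun z : ℝ × Y => dist (g (-z.1) z.2) z.2)
      ((hg.cont.comp (continuous_fst.neg.prodMk continuous_snd)).dist continuous_snd).continuousOn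
      (a := 0)
      (fun z hz => dist_pos.2 (fun h1 => hAp z.2 hz.2 z.1 (hτ₀.trans_le hz.1.1) hz.1.2 (by
        conv_lhs => rw [← h1]
        rw [← hg.add, add_neg_cancel, hg.zero])))
  obtain ⟨R, hR⟩ : ∃ R : ℝ, R = 8 * R1 + (b + l1 + l2 : ℕ) * (2 + 2 * B + D) + b * D := ⟨_, rfl⟩
  have hbl : (0 : ℝ) ≤ ((b + l1 + l2 : ℕ) : ℝ) := Nat.cast_nonneg _
  have hR0 : 0 < R := by
    rw [hR]
    positivity
  refine ⟨min (min ρ1 ρ2) (c₀ / 2), R, lt_min (lt_min hρ1 hρ2) (by positivity), hR0,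
    fun T hTR => ?_⟩
  have hT0 : 0 < T := hR0.trans_le hTR
  -- the pseudo-orbit
  obtain ⟨k, hk⟩ : ∃ k : ℕ, k = ⌊T / b⌋₊ := ⟨_, rfl⟩
  have hk1 : (k : ℝ) * b ≤ T := by
    have := Nat.floor_le (show 0 ≤ T / b by positivity)
    rw [← hk, le_div_iff₀ hb0] at this
    exact this
  have hk2 : T < k * b + b := by
    have := Nat.lt_floor_add_one (T / b)
    rw [← hk, div_lt_iff₀ hb0] at this
    linarith
  obtain ⟨M, hM⟩ : ∃ M : ℕ, M = l1 + (k * b + l2) := ⟨_, rfl⟩
  have hkq : g (((k * b : ℕ) : ℝ) * β) q = q := by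
    have h1 : ((k * b : ℕ) : ℝ) * β = ((k * j : ℕ) : ℝ) * P := by
      push_cast
      rw [mul_assoc, hbβ]
      ring
    rw [h1]
    exact per_mul hg hq _
  obtain ⟨O, hO⟩ : ∃ O : ℕ → Y, O = fun i : ℕ => g ((i : ℝ) * β) q := ⟨_, rfl⟩
  have hOs : ∀ i, O (i + 1) = g β (O i) := by
    intro i
    rw [hO]
    simp only
    rw [← hg.add]
    congr 1
    push_cast
    ring
  have hOd : ∀ i, dist (g 1 (O i)) (O (i + 1)) < δ := by
    intro i
    rw [hOs]
    exact hu4 1 β (by norm_num) hβ2 (hβa.trans_le hμ4) _ _ (by rw [dist_self]; exact he4)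
  obtain ⟨O', hO1, hO2, hO3⟩ := glue (fun a b => dist (g 1 a) b < δ) (w1 := O) (w2 := w2)
    (a := k * b) (b := l2) (fun i _ => hOd i) hw22 (by rw [hw20, hO]; exact hkq)
  obtain ⟨W, hW1, hW2, hW3⟩ := glue (fun a b => dist (g 1 a) b < δ) (w1 := w1) (w2 := O')
    (a := l1) (b := k * b + l2) hw12 hO3 (by
      rw [hw11, hO1 0 (Nat.zero_le _), hO]
      simp only
      rw [Nat.cast_zero, zero_mul, hg.zero])
  rw [← hM] at hW3
  have hTb : (b : ℝ) ≤ T := by
    have : (b : ℝ) ≤ ((b + l1 + l2 : ℕ) : ℝ) := by push_cast; linarith [Nat.cast_nonneg (α := ℝ) l1, Nat.cast_nonneg (α := ℝ) l2]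
    have h2 : (b : ℝ) * 2 ≤ ((b + l1 + l2 : ℕ) : ℝ) * (2 + 2 * B + D) :=
      mul_le_mul this (by linarith) (by norm_num) hbl
    have h3 : 0 ≤ (b : ℝ) * D := by positivity
    rw [hR] at hTR
    linarith
  have hk0 : 1 ≤ k := by
    rw [hk]
    apply Nat.le_floor
    rw [Nat.cast_one, le_div_iff₀ hb0]
    linarith
  have hbn : 1 ≤ b := by
    have : (0 : ℝ) < b := hb0
    exact_mod_cast this
  have hkb1 : 1 ≤ k * b := Nat.mul_pos hk0 hbn
  obtain ⟨y', t, ht0, hyP, hy'⟩ := H M W (by omega) (by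
    rw [hW1 0 (Nat.zero_le _), hw10]
    conv_lhs => rw [hM]
    rw [hW2, hO2, hw21]) hW3
  obtain ⟨P', hP'⟩ : ∃ P' : ℝ, P' = t M := ⟨_, rfl⟩
  rw [← hP'] at hyP
  have htimes := times ht0 (fun i hi => (hy' i hi).1)
  have hinc : ∀ i < M, 1 / 2 ≤ t (i + 1) - t i ∧ t (i + 1) - t i ≤ 2 := by
    intro i hi
    have h1 := abs_lt.1 (hy' i hi).1
    constructor <;> linarith
  have h0 := (hy' 0 (by omega)).2
  rw [hW1 0 (Nat.zero_le _), hw10, ht0, hg.zero] at h0
  have hkbR : (((k * b : ℕ) : ℝ)) = (k : ℝ) * b := by push_cast; ring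
  have hMR : (M : ℝ) = l1 + (k * b + l2) := by rw [hM]; push_cast; ring
  have hMT : |(M : ℝ) - T| ≤ ((b + l1 + l2 : ℕ) : ℝ) := by
    rw [hMR, abs_le]
    push_cast
    have := Nat.cast_nonneg (α := ℝ) l1
    have := Nat.cast_nonneg (α := ℝ) l2
    constructor <;> linarith
  have hPM : |P' - M| ≤ e₁ * M := by
    have := htimes M le_rfl
    rwa [← hP'] at this
  -- the middle
  have hmid : ∀ s, t l1 ≤ s → s ≤ t (l1 + k * b) → 3 * c₀ / 4 ≤ dist (g s y') y₀ := by
    intro s h1 h2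
    have h3 : l1 + k * b = l1 + ((k * b - 1) + 1) := by omega
    rw [h3] at h2
    obtain ⟨i, hi1, hi2, hi3, hi4⟩ := step_of (t := t) (a := l1) (k * b - 1) s h1 h2
    have hiM : i < M := by omega
    have h4 := (hy' i hiM).2
    obtain ⟨i', rfl⟩ := Nat.exists_eq_add_of_le hi1
    rw [hW2, hO1 i' (by omega)] at h4
    have h5 := hinc _ hiM
    have h6 : |s - t (l1 + i')| ≤ 2 := by rw [abs_le]; constructor <;> linarith
    have h7 := hu2 (s - t (l1 + i')) (s - t (l1 + i')) h6 h6 (by rw [sub_self, abs_zero]; exact he2)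
      _ _ (h4.trans_le he₁2)
    have h8 : g (s - t (l1 + i')) (g (t (l1 + i')) y') = g s y' := by
      rw [← hg.add]
      congr 1
      ring
    have h9 : g (s - t (l1 + i')) (O i') = g ((s - t (l1 + i')) + i' * β) q := by
      rw [hO, hg.add]
    rw [h8, h9] at h7
    have h10 := hcq ((s - t (l1 + i')) + i' * β)
    have h11 := dist_triangle (g ((s - t (l1 + i')) + i' * β) q) (g s y') y₀
    rw [dist_comm (g ((s - t (l1 + i')) + i' * β) q) (g s y')] at h11
    linarith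
  have htl1 : t l1 ≤ R1 := by
    have h1 := abs_le.1 (htimes l1 (by omega))
    have h2 : e₁ * (l1 : ℝ) ≤ 1 / 2 * l1 := mul_le_mul_of_nonneg_right he₁h (Nat.cast_nonneg _)
    rw [hR1]
    push_cast
    have := Nat.cast_nonneg (α := ℝ) l1
    have := Nat.cast_nonneg (α := ℝ) l2
    linarith [h1.2]
  have hend : ∀ i, P' - t (l1 + k * b) ≤ 2 * i + (P' - t (l1 + k * b + i)) ∨ l2 < i := by
    intro i
    induction i with
    | zero =>
      left
      rw [Nat.cast_zero, add_zero]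
      linarith
    | succ i ih =>
      rcases ih with ih | ih
      · rcases lt_or_ge i l2 with h1 | h1
        · left
          have h2 := (hinc (l1 + k * b + i) (by omega)).2
          push_cast
          have h3 : l1 + k * b + (i + 1) = l1 + k * b + i + 1 := by omega
          rw [h3]
          linarith
        · right
          omega
      · right
        omega
  have htl2 : P' - R1 ≤ t (l1 + k * b) := by
    rcases hend l2 with h1 | h1
    · have h2 : l1 + k * b + l2 = M := by omega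
      rw [h2, ← hP'] at h1
      rw [hR1]
      push_cast
      have := Nat.cast_nonneg (α := ℝ) l1
      linarith
    · exact absurd h1 (lt_irrefl _)
  have hmid' : ∀ s, R1 ≤ s → s ≤ P' - R1 → 3 * c₀ / 4 ≤ dist (g s y') y₀ := fun s h1 h2 =>
    hmid s (htl1.trans h1) (h2.trans htl2)
  have hMT' := abs_le.1 hMT
  have hPM' := abs_le.1 hPM
  have hRb : ((b + l1 + l2 : ℕ) : ℝ) * 2 + 8 * R1 ≤ R := by
    rw [hR]
    have h1 : 0 ≤ (b : ℝ) * D := by positivity
    have h2 : 0 ≤ ((b + l1 + l2 : ℕ) : ℝ) * (2 * B + D) := by positivity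
    have h3 : ((b + l1 + l2 : ℕ) : ℝ) * (2 + 2 * B + D) =
      ((b + l1 + l2 : ℕ) : ℝ) * 2 + ((b + l1 + l2 : ℕ) : ℝ) * (2 * B + D) := by ring
    linarith
  have hP3 : 3 * R1 ≤ P' := by
    have h1 : e₁ * (M : ℝ) ≤ 1 / 2 * M := mul_le_mul_of_nonneg_right he₁h (Nat.cast_nonneg _)
    linarith [hPM'.1, hMT'.1]
  have hyA : y' ∈ A := by
    rw [hA]
    refine ⟨by linarith, fun s hs => hmid' s hs.1 ?_⟩
    linarith [hs.2]
  refine ⟨y', P', by linarith, hyP, ?_, fun s hs1 hs2 => ?_, ?_⟩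
  · have h1 : P' - T = (P' - M) + (M - T) := by ring
    rw [h1]
    refine (abs_add_le _ _).trans ?_
    have h2 : e₁ * (M : ℝ) ≤ η' * M := mul_le_mul_of_nonneg_right he₁η (Nat.cast_nonneg _)
    have h3 : e₁ * (M : ℝ) ≤ η' * T + 1 / 2 * ((b + l1 + l2 : ℕ) : ℝ) := by
      have h4 : (M : ℝ) ≤ T + ((b + l1 + l2 : ℕ) : ℝ) := by linarith [hMT'.2]
      have h5 : e₁ * (M : ℝ) ≤ e₁ * (T + ((b + l1 + l2 : ℕ) : ℝ)) :=
        mul_le_mul_of_nonneg_left h4 he₁0.le
      have h6 : e₁ * T ≤ η' * T := mul_le_mul_of_nonneg_right he₁η hT0.le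
      have h7 : e₁ * ((b + l1 + l2 : ℕ) : ℝ) ≤ 1 / 2 * ((b + l1 + l2 : ℕ) : ℝ) :=
        mul_le_mul_of_nonneg_right he₁h hbl
      linarith
    have h8 : η' * T ≤ η * T := mul_le_mul_of_nonneg_right (by rw [hη']; linarith) hT0.le
    linarith
  · rcases le_or_gt s R1 with h1 | h1
    · exact (min_le_left _ _).trans ((min_le_left _ _).trans (hρ1A (s, y') ⟨⟨hs1, h1⟩, hyA⟩))
    · rcases le_or_gt (P' - R1) s with h2 | h2
      · have h3 := hρ2A (P' - s, y') ⟨⟨by linarith, by linarith⟩, hyA⟩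
        simp only at h3
        have h4 : g (-(P' - s)) y' = g s y' := by
          conv_lhs => rw [← hyP]
          rw [← hg.add]
          congr 1
          ring
        rw [h4] at h3
        exact (min_le_left _ _).trans ((min_le_right _ _).trans h3)
      · refine (min_le_right _ _).trans ?_
        have h3 := hmid' s h1.le h2.le
        have h4 := dist_triangle (g s y') y' y₀
        linarith
  · -- the cocycle
    obtain ⟨Z, hZ⟩ : ∃ Z : ℕ → E, Z = fun i => C (t (i + 1) - t i) (g (t i) y') := ⟨_, rfl⟩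
    have e0 : C P' y' = ∑ i ∈ Finset.range M, Z i := by
      rw [hP', hZ]
      exact coc_sum hg hC t ht0 y' M
    have hZB : ∀ i < M, ‖Z i‖ ≤ B := by
      intro i hi
      rw [hZ]
      apply hB
      have h1 := hinc i hi
      rw [abs_le]
      constructor <;> linarith
    have e1 : ∑ i ∈ Finset.range M, Z i = ∑ i ∈ Finset.range l1, Z i +
        (∑ i ∈ Finset.range (k * b), Z (l1 + i) +
          ∑ i ∈ Finset.range l2, Z (l1 + (k * b + i))) := by
      conv_lhs => rw [hM]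
      rw [Finset.sum_range_add, Finset.sum_range_add]
    have e2' : C (((k * b : ℕ) : ℝ) * β) q = ∑ i ∈ Finset.range (k * b), C β (O i) := by
      have h1 := coc_sum hg hC (fun i => (i : ℝ) * β) (by simp) q (k * b)
      rw [h1]
      apply Finset.sum_congr rfl
      intro i _
      rw [hO]
      simp only
      congr 1
      push_cast
      ring
    have e3' : C (((k * b : ℕ) : ℝ) * β) q = ((k * j : ℕ) : ℝ) • C P q := by
      have h1 : ((k * b : ℕ) : ℝ) * β = ((k * j : ℕ) : ℝ) * P := by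
        push_cast
        rw [mul_assoc, hbβ]
        ring
      rw [h1, coc_mul hg hC hq]
    have n1 : ‖∑ i ∈ Finset.range l1, Z i‖ ≤ l1 * B := by
      refine (norm_sum_le _ _).trans ?_
      refine (Finset.sum_le_sum (fun i hi => hZB i (by
        have := Finset.mem_range.1 hi
        omega))).trans ?_
      rw [Finset.sum_const, Finset.card_range, nsmul_eq_mul]
    have n2 : ‖∑ i ∈ Finset.range l2, Z (l1 + (k * b + i))‖ ≤ l2 * B := by
      refine (norm_sum_le _ _).trans ?_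
      refine (Finset.sum_le_sum (fun i hi => hZB _ (by
        have := Finset.mem_range.1 hi
        omega))).trans ?_
      rw [Finset.sum_const, Finset.card_range, nsmul_eq_mul]
    have n3 : ‖∑ i ∈ Finset.range (k * b), (Z (l1 + i) - C β (O i))‖ ≤ η' * T := by
      refine (norm_sum_le _ _).trans ?_
      have h1 : ∀ i ∈ Finset.range (k * b), ‖Z (l1 + i) - C β (O i)‖ ≤ η' := by
        intro i hi
        have hi' := Finset.mem_range.1 hi
        have hiM : l1 + i < M := by omega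
        have h2 := (hy' (l1 + i) hiM).2
        rw [hW2, hO1 i hi'.le] at h2
        have h3 := hinc _ hiM
        have h4 := (hy' (l1 + i) hiM).1
        rw [hZ]
        simp only
        refine (hu3 _ β (by rw [abs_le]; constructor <;> linarith) hβ2 ?_ _ _
          (by linarith)).le
        have h5 : t (l1 + i + 1) - t (l1 + i) - β = (t (l1 + i + 1) - t (l1 + i) - 1) + (1 - β) := by
          ring
        rw [h5]
        refine (abs_add_le _ _).trans_lt ?_
        linarith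
      refine (Finset.sum_le_sum h1).trans ?_
      rw [Finset.sum_const, Finset.card_range, nsmul_eq_mul, mul_comm, hkbR]
      exact mul_le_mul_of_nonneg_left hk1 hη'0.le
    have n4 : ‖((k * j : ℕ) : ℝ) • C P q - (T / P) • C P q‖ ≤ η' * T + b * D := by
      rw [← sub_smul, norm_smul]
      have h1 : ((k * j : ℕ) : ℝ) - T / P = (k * b * β - T) / P := by
        push_cast
        field_simp
        rw [mul_assoc (k : ℝ) b β, hbβ]
        ring
      have h2 : |(k : ℝ) * b * β - T| ≤ μ * T + b := by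
        have h3 : (k : ℝ) * b * β - T = k * b * (β - 1) + (k * b - T) := by ring
        have hkb0 : 0 ≤ (k : ℝ) * b := by positivity
        have h4 : (k : ℝ) * b * (β - 1) ≤ T * μ :=
          mul_le_mul hk1 hβμ.le (by linarith) hT0.le
        have h5 : 0 ≤ (k : ℝ) * b * (β - 1) := mul_nonneg hkb0 (by linarith)
        rw [abs_le]
        constructor
        · have : 0 ≤ μ * T := by positivity
          linarith
        · linarith
      rw [h1, Real.norm_eq_abs, abs_div, abs_of_pos hP]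
      have h6 : |(k : ℝ) * b * β - T| / P * ‖C P q‖ = |(k : ℝ) * b * β - T| * (‖C P q‖ / P) := by
        ring
      rw [h6]
      have h7 : ‖C P q‖ / P ≤ D := by rw [hD]; linarith
      have h8 : |(k : ℝ) * b * β - T| * (‖C P q‖ / P) ≤ (μ * T + b) * D :=
        mul_le_mul h2 h7 (by positivity) (by positivity)
      have h9 : μ * D ≤ η' := by
        rwa [le_div_iff₀ (by linarith)] at hμD
      have h10 : (μ * D) * T ≤ η' * T := mul_le_mul_of_nonneg_right h9 hT0.le
      have h11 : (μ * T + b) * D = (μ * D) * T + b * D := by ring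
      linarith
    have e4' : C P' y' - (T / P) • C P q = ∑ i ∈ Finset.range l1, Z i +
        ∑ i ∈ Finset.range l2, Z (l1 + (k * b + i)) +
        ∑ i ∈ Finset.range (k * b), (Z (l1 + i) - C β (O i)) +
        (((k * j : ℕ) : ℝ) • C P q - (T / P) • C P q) := by
      rw [e0, e1, Finset.sum_sub_distrib, ← e2', e3']
      abel
    rw [e4']
    have h1 := norm_add_le (∑ i ∈ Finset.range l1, Z i +
        ∑ i ∈ Finset.range l2, Z (l1 + (k * b + i)) +
        ∑ i ∈ Finset.range (k * b), (Z (l1 + i) - C β (O i)))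
        (((k * j : ℕ) : ℝ) • C P q - (T / P) • C P q)
    have h2 := norm_add_le (∑ i ∈ Finset.range l1, Z i +
        ∑ i ∈ Finset.range l2, Z (l1 + (k * b + i)))
        (∑ i ∈ Finset.range (k * b), (Z (l1 + i) - C β (O i)))
    have h3 := norm_add_le (∑ i ∈ Finset.range l1, Z i)
      (∑ i ∈ Finset.range l2, Z (l1 + (k * b + i)))
    have h4 : η' * T + η' * T ≤ η * T := by
      have : η' * T + η' * T = η / 2 * T := by rw [hη']; ring
      rw [this]
      exact mul_le_mul_of_nonneg_right (by linarith) hT0.le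
    have h5 : (l1 : ℝ) * B + l2 * B + b * D ≤ R := by
      rw [hR]
      push_cast
      have a1 : (0 : ℝ) ≤ b := hb0.le
      have a2 := Nat.cast_nonneg (α := ℝ) l1
      have a3 := Nat.cast_nonneg (α := ℝ) l2
      have a4 : 0 ≤ ((b : ℝ) + l1 + l2) * (2 + B + D) := by positivity
      have a5 : 0 ≤ (b : ℝ) * B := by positivity
      have a6 : ((b : ℝ) + l1 + l2) * (2 + 2 * B + D) = ((b : ℝ) + l1 + l2) * (2 + B + D) +
        (b * B + (l1 * B + l2 * B)) := by ring
      linarith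
    linarith

end

end Run7.h619.SK
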