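import Pool.Agent.Run7.h619.SK.FlowA

/-!
# The closing lemma for time maps of skew product flows over flows with the periodic shadowing property
-/

set_option autoImplicit false
set_option linter.unusedSectionVars false

open Filter Set Metric
open scoped Manifold ContDiff Topology

universe u v w

namespace Run7.h619.SK

open Pool.Agent.H718R2.G Pool.Agent.W564.SC Pool.Agent.W216.SC

section

variable {Y : Type w} [MetricSpace Y] [CompactSpace Y] {g : ℝ → Y → Y}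

/-- closed orbits are dense -/
theorem dense_perF (hg : IsCFlow g) (hs : FlowShadow g) (hT : ChainTrans (g 1)) (y : Y) (ε : ℝ)
    (hε : 0 < ε) : ∃ (q : Y) (P : ℝ), 0 < P ∧ g P q = q ∧ dist q y < ε := by
  obtain ⟨δ, hδ, H⟩ := hs (min ε (1 / 2)) (lt_min hε (by norm_num))
  obtain ⟨m, w, hm, hw0, hw1, hw2⟩ := hT δ hδ y y
  obtain ⟨q, t, ht0, hq, hq2⟩ := H m w hm (hw1.trans hw0.symm) hw2
  have h1 := abs_le.1 (times ht0 (fun i hi => (hq2 i hi).1) m le_rfl)
  have h2 : min ε (1 / 2) * (m : ℝ) ≤ 1 / 2 * m :=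
    mul_le_mul_of_nonneg_right (min_le_right _ _) (Nat.cast_nonneg _)
  have h3 : (1 : ℝ) ≤ m := by exact_mod_cast hm
  refine ⟨q, t m, by linarith [h1.1], hq, ?_⟩
  have h4 := (hq2 0 (by omega)).2
  rw [hw0, ht0, hg.zero] at h4
  exact h4.trans_le (min_le_left _ _)

theorem orbit_closed (hg : IsCFlow g) {q : Y} {P : ℝ} (hP : 0 < P) (hq : g P q = q) :
    IsClosed (range fun t => g t q) := by
  have h1 : (range fun t => g t q) = (fun t => g t q) '' Icc 0 P := by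
    apply Subset.antisymm
    · rintro _ ⟨t, rfl⟩
      by_contra hcon
      obtain ⟨k, hk⟩ : ∃ k : ℤ, k = ⌊t / P⌋ := ⟨_, rfl⟩
      have h3 : g (k * P) q = q := by
        rcases Int.eq_nat_or_neg k with ⟨j, hj | hj⟩
        · rw [hj]
          push_cast
          exact per_mul hg hq j
        · have h4 : g ((j : ℝ) * P) q = q := per_mul hg hq j
          rw [hj]
          push_cast
          have h5 : g (-(j : ℝ) * P) (g ((j : ℝ) * P) q) = q := by
            rw [← hg.add]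
            have : -(j : ℝ) * P + (j : ℝ) * P = 0 := by ring
            rw [this, hg.zero]
          rwa [h4] at h5
      apply hcon
      have h5 := Int.floor_le (t / P)
      have h6 := Int.lt_floor_add_one (t / P)
      rw [← hk] at h5 h6
      rw [le_div_iff₀ hP] at h5
      rw [div_lt_iff₀ hP] at h6
      refine ⟨t - k * P, ⟨by linarith, by linarith⟩, ?_⟩
      show g (t - k * P) q = g t q
      conv_rhs => rw [show t = (t - k * P) + k * P by ring]
      rw [hg.add, h3]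
    · rintro _ ⟨t, -, rfl⟩
      exact ⟨t, rfl⟩
  rw [h1]
  exact (isCompact_Icc.image (hg.cont.comp (continuous_id.prodMk continuous_const))).isClosed

/-- there is a closed orbit which does not contain `y` -/
theorem exists_otherF (hg : IsCFlow g) (hs : FlowShadow g) (hT : ChainTrans (g 1))
    (hY : ∀ y : Y, ∃ y', ∀ t, g t y ≠ y') (y : Y) :
    ∃ (q : Y) (P : ℝ), 0 < P ∧ g P q = q ∧ ∀ t, g t q ≠ y := by
  by_contra hcon
  push Not at hcon
  obtain ⟨q0, P0, hP0, hq0, -⟩ := dense_perF hg hs hT y 1 one_pos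
  obtain ⟨t0, ht0⟩ := hcon q0 P0 hP0 hq0
  have hy : g P0 y = y := by
    rw [← ht0, ← hg.add, add_comm, hg.add, hq0]
  have hcl := orbit_closed hg hP0 hy
  obtain ⟨y', hy'⟩ := hY y
  have h1 : y' ∈ closure (range fun t => g t y) := by
    rw [Metric.mem_closure_iff]
    intro ε hε
    obtain ⟨q, P, hP, hq, hd⟩ := dense_perF hg hs hT y' ε hε
    obtain ⟨t, ht⟩ := hcon q P hP hq
    refine ⟨q, ⟨-t, ?_⟩, by rw [dist_comm]; exact hd⟩
    show g (-t) y = q
    rw [← ht, ← hg.add, neg_add_cancel, hg.zero]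
  rw [hcl.closure_eq] at h1
  obtain ⟨t, ht⟩ := h1
  exact hy' t ht

/-- there are points near `y` outside of a given closed orbit -/
theorem exists_nearF (hg : IsCFlow g) (hs : FlowShadow g) (hT : ChainTrans (g 1))
    (hY : ∀ y : Y, ∃ y', ∀ t, g t y ≠ y') (y q : Y) (P : ℝ) (hP : 0 < P) (hq : g P q = q) (ε : ℝ)
    (hε : 0 < ε) : ∃ y₀ : Y, dist y₀ y < ε ∧ ∀ t, g t q ≠ y₀ := by
  obtain ⟨q2, P2, hP2, hq2, hq2y⟩ := exists_otherF hg hs hT hY y
  have hC : IsCoc g (fun _ _ => (0 : ℝ)) := ⟨continuous_const, fun _ _ _ => (add_zero 0).symm⟩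
  obtain ⟨ρ, R, hρ, hR, H⟩ := flexF hg hC hs hT y q2 P2 hP2 hq2 hq2y (min ε (1 / 2))
    (lt_min hε (by norm_num)) P hP
  obtain ⟨y', P', hy', -, hP', hsep, -⟩ := H (4 * R + 4 * P) (by linarith)
  refine ⟨y', hy'.trans_le (min_le_left _ _), fun t ht => ?_⟩
  have h3 : g P y' = y' := by
    rw [← ht, ← hg.add, add_comm, hg.add, hq]
  have h4 := (abs_le.1 hP').1
  have h5 : min ε (1 / 2) * (4 * R + 4 * P) ≤ 1 / 2 * (4 * R + 4 * P) :=
    mul_le_mul_of_nonneg_right (min_le_right _ _) (by positivity)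
  have h6 := hsep P le_rfl (by linarith)
  rw [h3, dist_self] at h6
  linarith

/-- a closed orbit with a given average -/
theorem averF {E : Type*} [NormedAddCommGroup E] [NormedSpace ℝ E] {C : ℝ → Y → E}
    (hg : IsCFlow g) (hC : IsCoc g C) (hs : FlowShadow g) (η : ℝ) (hη : 0 < η) :
    ∃ δ M : ℝ, 0 < δ ∧ ∀ T : ℝ, M ≤ T → ∀ y : Y, dist (g T y) y < δ →
      ∃ (q : Y) (P : ℝ), 0 < P ∧ g P q = q ∧ |P - T| ≤ η * T ∧ ‖C P q - C T y‖ ≤ η * T := by
  obtain ⟨η', hη'⟩ : ∃ η' : ℝ, η' = min (η / 2) (1 / 2) := ⟨_, rfl⟩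
  have hη'0 : 0 < η' := by rw [hη']; exact lt_min (by positivity) (by norm_num)
  have hη'η : η' ≤ η / 2 := by rw [hη']; exact min_le_left _ _
  have hη'h : η' ≤ 1 / 2 := by rw [hη']; exact min_le_right _ _
  obtain ⟨e3, he3, hu3⟩ := coc_unif hC 2 η' hη'0
  obtain ⟨e₁, he₁⟩ : ∃ e₁ : ℝ, e₁ = min (η' / 2) (e3 / 2) := ⟨_, rfl⟩
  have he₁0 : 0 < e₁ := by rw [he₁]; exact lt_min (by positivity) (by positivity)
  have he₁η : e₁ ≤ η' / 2 := by rw [he₁]; exact min_le_left _ _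
  have he₁3 : e₁ ≤ e3 / 2 := by rw [he₁]; exact min_le_right _ _
  obtain ⟨δ, hδ, H⟩ := hs e₁ he₁0
  obtain ⟨e4, he4, hu4⟩ := flow_unif hg 2 (δ / 2) (half_pos hδ)
  obtain ⟨μ, hμ⟩ : ∃ μ : ℝ, μ = min (min e4 (e3 / 2)) (min (η' / 2) 1) := ⟨_, rfl⟩
  have hμ0 : 0 < μ := by
    rw [hμ]
    exact lt_min (lt_min he4 (by positivity)) (lt_min (by positivity) one_pos)
  have hμ4 : μ ≤ e4 := by rw [hμ]; exact (min_le_left _ _).trans (min_le_left _ _)
  have hμ3 : μ ≤ e3 / 2 := by rw [hμ]; exact (min_le_left _ _).trans (min_le_right _ _)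
  have hμη : μ ≤ η' / 2 := by rw [hμ]; exact (min_le_right _ _).trans (min_le_left _ _)
  have hμ1 : μ ≤ 1 := by rw [hμ]; exact (min_le_right _ _).trans (min_le_right _ _)
  refine ⟨δ / 2, 1 / μ + 1, half_pos hδ, fun T hT y hy => ?_⟩
  have hμi : 1 ≤ 1 / μ := by rw [le_div_iff₀ hμ0]; linarith
  have hT0 : 0 < T := by linarith
  obtain ⟨b, hb⟩ : ∃ b : ℕ, b = ⌊T⌋₊ := ⟨_, rfl⟩
  have hb1 : (b : ℝ) ≤ T := by rw [hb]; exact Nat.floor_le hT0.le
  have hb2 : T < b + 1 := by rw [hb]; exact Nat.lt_floor_add_one _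
  have hbμ : 1 / μ < b := by linarith
  have hb0 : (0 : ℝ) < b := by linarith
  have hbn : 1 ≤ b := by exact_mod_cast hb0
  obtain ⟨β, hβ⟩ : ∃ β : ℝ, β = T / b := ⟨_, rfl⟩
  have hbβ : (b : ℝ) * β = T := by rw [hβ]; field_simp
  have hβ1 : 1 ≤ β := by rw [hβ, le_div_iff₀ hb0]; linarith
  have hβμ : β - 1 < μ := by
    have h1 : β - 1 = (T - b) / b := by rw [hβ]; field_simp
    rw [h1, div_lt_iff₀ hb0]
    rw [div_lt_iff₀ hμ0] at hbμ
    linarith
  have hβ2 : |β| ≤ 2 := by rw [abs_le]; constructor <;> linarith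
  have hβa : |1 - β| < μ := by rw [abs_lt]; constructor <;> linarith
  obtain ⟨W, hW⟩ : ∃ W : ℕ → Y, W = fun i : ℕ => if i < b then g ((i : ℝ) * β) y else y := ⟨_, rfl⟩
  have hWi : ∀ i < b, W i = g ((i : ℝ) * β) y := by
    intro i hi
    rw [hW]
    simp only [hi, if_true]
  have hWb : W b = y := by
    rw [hW]
    simp only [lt_irrefl, if_false]
  have hW0 : W 0 = y := by
    rw [hWi 0 (by omega), Nat.cast_zero, zero_mul, hg.zero]
  obtain ⟨q, t, ht0, hq, hqW⟩ := H b W hbn (by rw [hWb, hW0]) (by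
    intro i hi
    rw [hWi i hi]
    have h1 : dist (g 1 (g ((i : ℝ) * β) y)) (g (((i + 1 : ℕ) : ℝ) * β) y) < δ / 2 := by
      have h2 : g (((i + 1 : ℕ) : ℝ) * β) y = g β (g ((i : ℝ) * β) y) := by
        rw [← hg.add]
        congr 1
        push_cast
        ring
      rw [h2]
      exact hu4 1 β (by norm_num) hβ2 (hβa.trans_le hμ4) _ _ (by rw [dist_self]; exact he4)
    rcases lt_or_ge (i + 1) b with h3 | h3
    · rw [hWi _ h3]
      linarith
    · have h4 : i + 1 = b := by omega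
      rw [h4, hbβ] at h1
      rw [h4, hWb]
      have h5 := dist_triangle (g 1 (g ((i : ℝ) * β) y)) (g T y) y
      linarith)
  have htimes := abs_le.1 (times ht0 (fun i hi => (hqW i hi).1) b le_rfl)
  have he1b : e₁ * (b : ℝ) ≤ η' / 2 * b := mul_le_mul_of_nonneg_right he₁η hb0.le
  have hη'b : η' / 2 * (b : ℝ) ≤ 1 / 4 * b := mul_le_mul_of_nonneg_right (by linarith) hb0.le
  refine ⟨q, t b, by linarith [htimes.1], hq, ?_, ?_⟩
  · have h1 : T - b ≤ μ * b := by
      have h2 : T - b = (β - 1) * b := by rw [sub_mul, one_mul, mul_comm, hbβ]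
      rw [h2]
      exact mul_le_mul_of_nonneg_right hβμ.le hb0.le
    have h2 : μ * (b : ℝ) ≤ η' / 2 * b := mul_le_mul_of_nonneg_right hμη hb0.le
    have h3 : η' * (b : ℝ) ≤ η * T := mul_le_mul (by linarith) hb1 hb0.le hη.le
    rw [abs_le]
    constructor <;> linarith [htimes.1, htimes.2]
  · have h1 : C T y = ∑ i ∈ Finset.range b, C β (g ((i : ℝ) * β) y) := by
      have h2 := coc_sum hg hC (fun i => (i : ℝ) * β) (by simp) y b
      conv_lhs => rw [← hbβ]
      rw [h2]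
      apply Finset.sum_congr rfl
      intro i _
      congr 1
      push_cast
      ring
    rw [coc_sum hg hC t ht0 q b, h1, ← Finset.sum_sub_distrib]
    refine (norm_sum_le _ _).trans ?_
    have h3 : ∀ i ∈ Finset.range b, ‖C (t (i + 1) - t i) (g (t i) q) - C β (g ((i : ℝ) * β) y)‖ ≤ η' := by
      intro i hi
      have hi' := Finset.mem_range.1 hi
      have h4 := hqW i hi'
      rw [hWi i hi'] at h4
      have h5 := abs_lt.1 h4.1
      refine (hu3 _ β (by rw [abs_le]; constructor <;> linarith) hβ2 ?_ _ _ (by linarith [h4.2])).le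
      have h6 : t (i + 1) - t i - β = (t (i + 1) - t i - 1) + (1 - β) := by ring
      rw [h6]
      refine (abs_add_le _ _).trans_lt ?_
      linarith [h4.1]
    refine (Finset.sum_le_sum h3).trans ?_
    rw [Finset.sum_const, Finset.card_range, nsmul_eq_mul]
    have h4 : (b : ℝ) * η' ≤ T * η := mul_le_mul hb1 (by linarith) hη'0.le hT0.le
    linarith

end

/-! ### the setting -/

/-- `ψ` is a `C^r` flow on `N` -/
structure IsRFlow (n : ℕ) (N : Type*) [TopologicalSpace N] [ChartedSpace (V n) N] (r : ℕ∞)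
    (Ψ : ℝ → N → N) : Prop where
  smooth : ContMDiff (𝓘(ℝ, ℝ).prod (𝓡 n)) (𝓡 n) r (fun q : ℝ × N => Ψ q.1 q.2)
  zero : ∀ y, Ψ 0 y = y
  add : ∀ s t y, Ψ (s + t) y = Ψ s (Ψ t y)

/-- The flow `Ψ` is, on the compact set `Θ(X × Y)`, the skew product flow
`(x, y) ↦ (φ_(C(t, y)) x, g_t(y))`, where `φ` is the restriction of the action `ψ` of `ℝ^d` to the fibres
`Θ(X × {y})`. -/
structure IsSkewFlow {d : ℕ} (n : ℕ) {N : Type*} [TopologicalSpace N] [ChartedSpace (V n) N] (r : ℕ∞)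
    {X Y : Type*} [TopologicalSpace X] [TopologicalSpace Y] (Θ : X × Y → N)
    (ψ : V d → N → N) (Ψ : ℝ → N → N) (φ : V d → X → X) (g : ℝ → Y → Y) (C : ℝ → Y → V d) :
    Prop where
  act : IsAct d n N r ψ
  flow : IsRFlow n N r Ψ
  emb : Topology.IsEmbedding Θ
  restr : ∀ s x y, ψ s (Θ (x, y)) = Θ (φ s x, y)
  restr' : ∀ t x y, Ψ t (Θ (x, y)) = Θ (φ (C t y) x, g t y)
  coc : IsCoc g C

section

variable {d n : ℕ} {N : Type u} [TopologicalSpace N] [ChartedSpace (V n) N] {r : ℕ∞}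

/-- the maps of a flow as diffeomorphisms -/
noncomputable def dFlow {Ψ : ℝ → N → N} (hΨ : IsRFlow n N r Ψ) (s : ℝ) : DiffM n N r where
  toFun := Ψ s
  invFun := Ψ (-s)
  left_inv y := by rw [← hΨ.add, neg_add_cancel, hΨ.zero]
  right_inv y := by rw [← hΨ.add, add_neg_cancel, hΨ.zero]
  contMDiff_toFun := by
    have h1 : ContMDiff (𝓡 n) (𝓘(ℝ, ℝ).prod (𝓡 n)) r (fun y : N => (s, y)) :=
      contMDiff_const.prodMk contMDiff_id
    exact hΨ.smooth.comp h1
  contMDiff_invFun := by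
    have h1 : ContMDiff (𝓡 n) (𝓘(ℝ, ℝ).prod (𝓡 n)) r (fun y : N => (-s, y)) :=
      contMDiff_const.prodMk contMDiff_id
    exact hΨ.smooth.comp h1

theorem famF {ψ : V d → N → N} {Ψ : ℝ → N → N} (hψ : IsAct d n N r ψ) (hΨ : IsRFlow n N r Ψ)
    (F : DiffM n N r) :
    IsFam n N r (fun s : V d × ℝ => (F.trans (dFlow hΨ s.2)).trans (dAct hψ s.1)) := by
  intro y
  have hfst : ContMDiffAt (𝓘(ℝ, V d × ℝ).prod (𝓡 n)) 𝓘(ℝ, V d × ℝ) r
      (fun z : (V d × ℝ) × N => z.1) ((0 : V d × ℝ), y) := contMDiffAt_fst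
  have h1 : ContMDiffAt (𝓘(ℝ, V d × ℝ).prod (𝓡 n)) (𝓡 n) r (fun z : (V d × ℝ) × N => F z.2)
      ((0 : V d × ℝ), y) := (F.contMDiff.contMDiffAt).comp _ contMDiffAt_snd
  have h2 : ContMDiffAt (𝓘(ℝ, V d × ℝ).prod (𝓡 n)) 𝓘(ℝ, ℝ) r (fun z : (V d × ℝ) × N => z.1.2)
      ((0 : V d × ℝ), y) := by
    have c1 : ContDiff ℝ r (fun q : V d × ℝ => q.2) := contDiff_snd
    exact (c1.contMDiff.contMDiffAt).comp _ hfst
  have h3 : ContMDiffAt (𝓘(ℝ, V d × ℝ).prod (𝓡 n)) (𝓡 d) r (fun z : (V d × ℝ) × N => z.1.1)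
      ((0 : V d × ℝ), y) := by
    have c1 : ContDiff ℝ r (fun q : V d × ℝ => q.1) := contDiff_fst
    exact (c1.contMDiff.contMDiffAt).comp _ hfst
  have h4 : ContMDiffAt (𝓘(ℝ, V d × ℝ).prod (𝓡 n)) (𝓡 n) r
      (fun z : (V d × ℝ) × N => Ψ z.1.2 (F z.2)) ((0 : V d × ℝ), y) :=
    ContMDiffAt.comp (g := fun q : ℝ × N => Ψ q.1 q.2)
      (f := fun z : (V d × ℝ) × N => (z.1.2, F z.2)) _ (hΨ.smooth.contMDiffAt) (h2.prodMk h1)
  exact ContMDiffAt.comp (g := fun q : V d × N => ψ q.1 q.2)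
    (f := fun z : (V d × ℝ) × N => (z.1.1, Ψ z.1.2 (F z.2))) _ (hψ.smooth.contMDiffAt)
    (h3.prodMk h4)

variable {X : Type v} {Y : Type w} [TopologicalSpace X] [MetricSpace Y] [CompactSpace Y]
  {Θ : X × Y → N} {ψ : V d → N → N} {Ψ : ℝ → N → N} {φ : V d → X → X} {g : ℝ → Y → Y}
  {C : ℝ → Y → V d}

theorem IsSkewFlow.phi_zero [Nonempty Y] (H : IsSkewFlow n r Θ ψ Ψ φ g C) (x : X) : φ 0 x = x := by
  obtain ⟨y⟩ := ‹Nonempty Y›
  have h1 := H.restr 0 x y
  rw [H.act.zero] at h1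
  exact (congrArg Prod.fst (H.emb.injective h1)).symm

theorem IsSkewFlow.phi_add [Nonempty Y] (H : IsSkewFlow n r Θ ψ Ψ φ g C) (s t : V d) (x : X) :
    φ (s + t) x = φ s (φ t x) := by
  obtain ⟨y⟩ := ‹Nonempty Y›
  have h1 := H.restr (s + t) x y
  rw [H.act.add, H.restr t x y, H.restr s] at h1
  exact (congrArg Prod.fst (H.emb.injective h1)).symm

theorem IsSkewFlow.phi_cont [Nonempty Y] (H : IsSkewFlow n r Θ ψ Ψ φ g C) :
    Continuous fun q : V d × X => φ q.1 q.2 := by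
  obtain ⟨y⟩ := ‹Nonempty Y›
  have h1 : Continuous fun q : V d × X => Θ (φ q.1 q.2, y) := by
    have h2 : (fun q : V d × X => Θ (φ q.1 q.2, y)) =
        (fun q : V d × N => ψ q.1 q.2) ∘ (fun q : V d × X => (q.1, Θ (q.2, y))) := by
      funext q
      exact (H.restr q.1 q.2 y).symm
    rw [h2]
    have h3 : Continuous fun q : V d × X => (q.1, Θ (q.2, y)) :=
      continuous_fst.prodMk (H.emb.continuous.comp (continuous_snd.prodMk continuous_const))
    exact H.act.smooth.continuous.comp h3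
  exact continuous_fst.comp (H.emb.continuous_iff.2 h1)

theorem IsSkewFlow.cflow [Nonempty X] (H : IsSkewFlow n r Θ ψ Ψ φ g C) : IsCFlow g := by
  obtain ⟨x⟩ := ‹Nonempty X›
  refine ⟨?_, fun y => ?_, fun s t y => ?_⟩
  · have h1 : Continuous fun q : ℝ × Y => Θ (φ (C q.1 q.2) x, g q.1 q.2) := by
      have h2 : (fun q : ℝ × Y => Θ (φ (C q.1 q.2) x, g q.1 q.2)) =
          (fun q : ℝ × N => Ψ q.1 q.2) ∘ (fun q : ℝ × Y => (q.1, Θ (x, q.2))) := by
        funext q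
        exact (H.restr' q.1 x q.2).symm
      rw [h2]
      have h3 : Continuous fun q : ℝ × Y => (q.1, Θ (x, q.2)) :=
        continuous_fst.prodMk (H.emb.continuous.comp (continuous_const.prodMk continuous_snd))
      exact H.flow.smooth.continuous.comp h3
    exact continuous_snd.comp (H.emb.continuous_iff.2 h1)
  · have h1 := H.restr' 0 x y
    rw [H.flow.zero] at h1
    exact (congrArg Prod.snd (H.emb.injective h1)).symm
  · have h1 := H.restr' (s + t) x y
    rw [H.flow.add, H.restr' t x y, H.restr' s] at h1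
    exact (congrArg Prod.snd (H.emb.injective h1)).symm

theorem IsSkewFlow.iter [Nonempty X] [Nonempty Y] (H : IsSkewFlow n r Θ ψ Ψ φ g C)
    {F : DiffM n N r} {f : X → X} {τ : ℝ} (hcomm : ∀ s x, f (φ s x) = φ s (f x))
    (hF : ∀ x y, F (Θ (x, y)) = Ψ τ (Θ (f x, y))) (s : V d) (u : ℝ) (i : ℕ) (x : X) (y : Y) :
    ((F.trans (dFlow H.flow u)).trans (dAct H.act s))^[i] (Θ (x, y)) =
      Θ (φ (C (i * (τ + u)) y + (i : ℝ) • s) (f^[i] x), g (i * (τ + u)) y) := by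
  have hg := H.cflow
  induction i with
  | zero =>
    rw [Nat.cast_zero, zero_mul, zero_smul, add_zero, H.coc.zero hg, H.phi_zero, hg.zero]
    rfl
  | succ i ih =>
    rw [Function.iterate_succ_apply', ih]
    show ψ s (Ψ u (F (Θ _))) = _
    rw [hF, ← H.flow.add, H.restr', H.restr, hcomm, ← H.phi_add, ← H.phi_add,
      Function.iterate_succ_apply', ← hg.add]
    have e : (((i + 1 : ℕ) : ℝ)) * (τ + u) = (u + τ) + i * (τ + u) := by push_cast; ring
    have e2 : C ((((i + 1 : ℕ) : ℝ)) * (τ + u)) y =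
        C (i * (τ + u)) y + C (u + τ) (g (i * (τ + u)) y) := by rw [e, H.coc.add]
    rw [e2, e]
    congr 3
    push_cast
    rw [add_smul, one_smul]
    abel

end

end Run7.h619.SK
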