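import Pool.Agent.Run7.h619.SK.FlowB
import Pool.Agent.TH382.HS.Limit

/-!
# The closing lemma for time maps of skew product flows over flows with the periodic shadowing property
-/

set_option autoImplicit false
set_option linter.unusedSectionVars false

open Filter Set Metric
open scoped Manifold ContDiff Topology

universe u v w

namespace Run7.h619.SK

open Pool.Agent.H718R2.G Pool.Agent.W564.SC Pool.Agent.W216.SC

/-- **The closing lemma for time maps of skew product flows.** -/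
theorem closable_of_flow {d n : ℕ} {N : Type u} [TopologicalSpace N] [T2Space N] [CompactSpace N]
    [ChartedSpace (V n) N] [IsManifold (𝓡 n) ∞ N] {r : ℕ∞} (hr : 1 ≤ r) (F : DiffM n N r)
    {X : Type v} {Y : Type w} [MetricSpace X] [CompactSpace X] [MetricSpace Y] [CompactSpace Y]
    {Θ : X × Y → N} {ψ : V d → N → N} {Ψ : ℝ → N → N} {φ : V d → X → X} {f : X → X}
    {g : ℝ → Y → Y} {C : ℝ → Y → V d} (H : IsSkewFlow n r Θ ψ Ψ φ g C) (hf : Continuous f)
    (hcomm : ∀ s x, f (φ s x) = φ s (f x)) (τ : ℝ) (hτ0 : 0 < τ)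
    (hF : ∀ x y, F (Θ (x, y)) = Ψ τ (Θ (f x, y))) (hs : FlowShadow g) (hT : ChainTrans (g 1))
    (hY : ∀ y : Y, ∃ y', ∀ t, g t y ≠ y') (x : X) (y : Y)
    (hw : NonWand (skew φ f (g τ) (C τ)) (x, y)) : Closable n N r F (Θ (x, y)) := by
  intro U hU hFU
  have : Nonempty X := ⟨x⟩
  have : Nonempty Y := ⟨y⟩
  have hg := H.cflow
  have hcτ : Continuous (C τ) := H.coc.cont.comp (continuous_const.prodMk continuous_id)
  have hS : Continuous (skew φ f (g τ) (C τ)) := by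
    have h1 : Continuous fun p : X × Y => (C τ p.2, f p.1) :=
      (hcτ.comp continuous_snd).prodMk (hf.comp continuous_fst)
    exact (H.phi_cont.comp h1).prodMk ((hg.cont_map τ).comp continuous_snd)
  obtain ⟨a, ha⟩ := dir H.phi_zero H.phi_add hcomm hS hcτ x y hw
  -- iterates
  have hgi : ∀ (m : ℕ) (y1 : Y), (g τ)^[m] y1 = g (m * τ) y1 := by
    intro m y1
    induction m with
    | zero => rw [Nat.cast_zero, zero_mul, hg.zero]; rfl
    | succ m ih =>
      rw [Function.iterate_succ_apply', ih, ← hg.add]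
      congr 1
      push_cast
      ring
  have hbi : ∀ (m : ℕ) (y1 : Y), birkhoffSum (g τ) (C τ) m y1 = C (m * τ) y1 := by
    intro m y1
    induction m with
    | zero => rw [birkhoffSum_zero, Nat.cast_zero, zero_mul, H.coc.zero hg]
    | succ m ih =>
      rw [birkhoffSum_succ, ih, hgi]
      have e : (((m + 1 : ℕ) : ℝ)) * τ = τ + m * τ := by push_cast; ring
      rw [e, H.coc.add]
  simp only [hgi, hbi] at ha
  obtain ⟨χ, hχ⟩ := Pool.Agent.W699.SC.gc n N (Θ (x, y))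
  have h0 : (F.trans (dFlow H.flow (0 : V d × ℝ).2)).trans (dAct H.act (0 : V d × ℝ).1) = F := by
    ext z
    show ψ 0 (Ψ 0 (F z)) = F z
    rw [H.flow.zero, H.act.zero]
  obtain ⟨k, hk, κ, hκ, hcl⟩ := t_CL n N r hr (V d × ℝ) _ (famF H.act H.flow F) χ (Θ (x, y)) hχ U hU
    (by rw [h0]; exact hFU)
  obtain ⟨η, hη, hball⟩ := good_ball H.emb hχ rfl (lt_min hκ (half_pos one_pos) :
    (0 : ℝ) < min κ (1 / 2))
  -- the sizes
  obtain ⟨B, hB0, hB⟩ := coc_bound H.coc 1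
  obtain ⟨D, hD⟩ : ∃ D : ℝ, D = ‖a‖ + 1 := ⟨_, rfl⟩
  have hD1 : 1 ≤ D := by rw [hD]; linarith [norm_nonneg a]
  obtain ⟨κ', hκ'⟩ : ∃ κ' : ℝ, κ' = min (κ / 32) (1 / 32) := ⟨_, rfl⟩
  have hκ'0 : 0 < κ' := by rw [hκ']; exact lt_min (by positivity) (by norm_num)
  have hκ'κ : κ' ≤ κ / 32 := by rw [hκ']; exact min_le_left _ _
  have hκ'1 : κ' ≤ 1 / 32 := by rw [hκ']; exact min_le_right _ _
  obtain ⟨ν, hν⟩ : ∃ ν : ℝ, ν = κ' / (D * (τ + 1)) := ⟨_, rfl⟩
  have hDτ : 0 < D * (τ + 1) := by positivity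
  have hν0 : 0 < ν := by rw [hν]; positivity
  have hνD : ν * (D * (τ + 1)) = κ' := by rw [hν]; field_simp
  have hDτ1 : 1 ≤ D * (τ + 1) := one_le_mul_of_one_le_of_one_le hD1 (by linarith)
  have hDτ2 : τ + 1 ≤ D * (τ + 1) := le_mul_of_one_le_left (by linarith) hD1
  have hDτ3 : D ≤ D * (τ + 1) := le_mul_of_one_le_right (by linarith) (by linarith)
  have hνκ : ν ≤ κ' := by
    rw [← hνD]
    exact le_mul_of_one_le_right hν0.le hDτ1
  have hντ : ν * τ ≤ κ' := by
    rw [← hνD]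
    exact mul_le_mul_of_nonneg_left (by linarith) hν0.le
  have hνD' : ν * D ≤ κ' := by
    rw [← hνD]
    exact mul_le_mul_of_nonneg_left hDτ3 hν0.le
  -- the closed orbit `q`
  obtain ⟨δ₁, M₁, hδ₁, hav⟩ := averF hg H.coc hs ν hν0
  obtain ⟨M₂, hM₂⟩ := exists_nat_ge (M₁ / τ)
  obtain ⟨b, x1, y1, hbM, hb1, -, hy1, -, hy1b, hb⟩ := ha (min κ' (δ₁ / 2))
    (lt_min hκ'0 (half_pos hδ₁)) M₂
  have hb0 : (0 : ℝ) < b := by exact_mod_cast hb1
  have hret : dist (g (b * τ) y1) y1 < δ₁ := by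
    have h1 := dist_triangle_right (g (b * τ) y1) y1 y
    have h2 := min_le_right κ' (δ₁ / 2)
    linarith
  have hbT : M₁ ≤ b * τ := by
    rw [div_le_iff₀ hτ0] at hM₂
    have h1 : (M₂ : ℝ) ≤ b := by exact_mod_cast hbM
    have h2 := mul_le_mul_of_nonneg_right h1 hτ0.le
    linarith
  obtain ⟨q, P, hP, hq, hPT, hqC⟩ := hav (b * τ) hbT y1 hret
  -- the average of `q` is close to `a`
  have hτq : ‖(τ / P) • C P q - a‖ ≤ 6 * κ' := by
    have h1 : ‖C (b * τ) y1 - (b : ℝ) • a‖ ≤ κ' * b :=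
      hb.trans (mul_le_mul_of_nonneg_right (min_le_left _ _) hb0.le)
    have hνb : ν * (b * τ) ≤ κ' * b := by
      have := mul_le_mul_of_nonneg_right hντ hb0.le
      linarith
    have h2 : ‖C P q - (b : ℝ) • a‖ ≤ 2 * κ' * b := by
      have h3 : C P q - (b : ℝ) • a = (C P q - C (b * τ) y1) + (C (b * τ) y1 - (b : ℝ) • a) := by abel
      rw [h3]
      refine (norm_add_le _ _).trans ?_
      linarith
    have h4 : ‖(P / τ) • a - (b : ℝ) • a‖ ≤ κ' * b := by
      rw [← sub_smul, norm_smul, Real.norm_eq_abs]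
      have h5 : P / τ - b = (P - b * τ) / τ := by field_simp
      rw [h5, abs_div, abs_of_pos hτ0]
      have h6 : |P - b * τ| / τ ≤ ν * b := by
        rw [div_le_iff₀ hτ0]
        linarith
      have h7 : ‖a‖ ≤ D := by rw [hD]; linarith
      have h8 : |P - b * τ| / τ * ‖a‖ ≤ ν * b * D :=
        mul_le_mul h6 h7 (norm_nonneg _) (by positivity)
      have h10 := mul_le_mul_of_nonneg_right hνD' hb0.le
      linarith
    have h5 : ‖C P q - (P / τ) • a‖ ≤ 3 * κ' * b := by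
      have h6 : C P q - (P / τ) • a = (C P q - (b : ℝ) • a) - ((P / τ) • a - (b : ℝ) • a) := by abel
      rw [h6]
      refine (norm_sub_le _ _).trans ?_
      linarith
    have h6 : (τ / P) • C P q - a = (τ / P) • (C P q - (P / τ) • a) := by
      rw [smul_sub, smul_smul]
      have : τ / P * (P / τ) = 1 := by field_simp
      rw [this, one_smul]
    rw [h6, norm_smul, Real.norm_of_nonneg (by positivity)]
    have h7 : b * τ ≤ 2 * P := by
      have h8 := (abs_le.1 hPT).1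
      have h9 : ν * (b * τ) ≤ 1 / 2 * (b * τ) :=
        mul_le_mul_of_nonneg_right (by linarith) (by positivity)
      linarith
    have h8 : τ / P * ‖C P q - (P / τ) • a‖ ≤ τ / P * (3 * κ' * b) :=
      mul_le_mul_of_nonneg_left h5 (by positivity)
    have h9 : τ / P * (3 * κ' * b) = 3 * κ' * (b * τ / P) := by ring
    have h10 : b * τ / P ≤ 2 := by rw [div_le_iff₀ hP]; exact h7
    have h11 : 3 * κ' * (b * τ / P) ≤ 3 * κ' * 2 := mul_le_mul_of_nonneg_left h10 (by positivity)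
    linarith
  -- the initial point
  obtain ⟨y₀, hy₀, hqy₀⟩ := exists_nearF hg hs hT hY y q P hP hq (η / 2) (half_pos hη)
  obtain ⟨ρ₀, R, hρ₀, hR, hflex⟩ := flexF hg H.coc hs hT y₀ q P hP hq hqy₀
    (min (η / 2) ν) (lt_min (half_pos hη) hν0) (τ / 2) (half_pos hτ0)
  obtain ⟨ρ1, hρ1, hsep⟩ := sep (X := X) (Y := Y) H.emb hχ hρ₀
  obtain ⟨ρ, hρd⟩ : ∃ ρ : ℝ, ρ = min (ρ1 / 2) (κ / 2) := ⟨_, rfl⟩
  have hρ : 0 < ρ := by rw [hρd]; exact lt_min (half_pos hρ1) (half_pos hκ)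
  have hρκ : ρ < κ := by
    rw [hρd]
    exact (min_le_right _ _).trans_lt (half_lt_self hκ)
  have hρρ : 2 * ρ ≤ ρ1 := by
    have := min_le_left (ρ1 / 2) (κ / 2)
    rw [← hρd] at this
    linarith
  -- uniform continuity
  have hBc : IsCompact (closedBall ((x, y) : X × Y) η) := Metric.isClosed_closedBall.isCompact
  have hco : ContinuousOn (fun p : X × Y => χ (Θ p)) (closedBall ((x, y) : X × Y) η) := by
    apply χ.continuousOn.comp H.emb.continuous.continuousOn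
    intro p hp
    exact (hball p hp).1
  have huc2 := hBc.uniformContinuousOn_of_continuous hco
  rw [Metric.uniformContinuousOn_iff] at huc2
  have hκρ : 0 < κ * ρ ^ k := by positivity
  obtain ⟨δ3, hδ3, huc3⟩ := huc2 (κ * ρ ^ k) hκρ
  obtain ⟨ε, hεd⟩ : ∃ ε : ℝ, ε = min (min η κ') (δ3 / 2) := ⟨_, rfl⟩
  have hε : 0 < ε := by
    rw [hεd]
    exact lt_min (lt_min hη hκ'0) (half_pos hδ3)
  have hεη : ε ≤ η := by rw [hεd]; exact (min_le_left _ _).trans (min_le_left _ _)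
  have hεκ : ε ≤ κ' := by rw [hεd]; exact (min_le_left _ _).trans (min_le_right _ _)
  have hεδ3 : ε ≤ δ3 / 2 := by rw [hεd]; exact min_le_right _ _
  obtain ⟨M3, hM3⟩ := exists_nat_ge (R / τ)
  obtain ⟨M4, hM4⟩ := exists_nat_ge (R / κ')
  obtain ⟨M5, hM5⟩ := exists_nat_ge (R / (τ / 4))
  obtain ⟨m, x2, y2, hmM, hm1, hx2, hy2, hx2m, hy2m, hm⟩ := ha ε hε (max M3 (max M4 M5))
  have hm0 : (0 : ℝ) < m := by exact_mod_cast hm1
  have hR1 : R ≤ m * τ := by
    have h1 : (M3 : ℝ) ≤ m := by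
      have := (le_max_left M3 (max M4 M5)).trans hmM
      exact_mod_cast this
    rw [div_le_iff₀ hτ0] at hM3
    have := mul_le_mul_of_nonneg_right h1 hτ0.le
    linarith
  have hR2 : R ≤ κ' * m := by
    have h1 : (M4 : ℝ) ≤ m := by
      have := ((le_max_left M4 M5).trans (le_max_right M3 _)).trans hmM
      exact_mod_cast this
    rw [div_le_iff₀ hκ'0] at hM4
    have := mul_le_mul_of_nonneg_right h1 hκ'0.le
    linarith
  have hR3 : R ≤ τ / 4 * m := by
    have h1 : (M5 : ℝ) ≤ m := by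
      have := ((le_max_right M4 M5).trans (le_max_right M3 _)).trans hmM
      exact_mod_cast this
    rw [div_le_iff₀ (by positivity)] at hM5
    have := mul_le_mul_of_nonneg_right h1 (show 0 ≤ τ / 4 by positivity)
    linarith
  obtain ⟨y', P', hy', hy'm, hP'T, hy's, hy'c⟩ := hflex (m * τ) hR1
  have hyη : dist y' y ≤ η := by
    have h1 := dist_triangle y' y₀ y
    have h2 := min_le_left (η / 2) ν
    linarith
  have hmν : min (η / 2) ν * (m * τ) ≤ ν * τ * m := by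
    have := mul_le_mul_of_nonneg_right (min_le_right (η / 2) ν) (show 0 ≤ (m : ℝ) * τ by positivity)
    linarith
  have hντm : ν * τ * m ≤ κ' * m := mul_le_mul_of_nonneg_right hντ hm0.le
  -- the parameters
  obtain ⟨u, hu⟩ : ∃ u : ℝ, u = P' / m - τ := ⟨_, rfl⟩
  have hmu : (m : ℝ) * (τ + u) = P' := by rw [hu]; field_simp; ring
  have hmu' : (m : ℝ) * |u| = |P' - m * τ| := by
    have h1 : P' - m * τ = m * u := by rw [← hmu]; ring
    rw [h1, abs_mul, abs_of_pos hm0]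
  have huκ : |u| ≤ 2 * κ' := by
    have h1 : (m : ℝ) * |u| ≤ m * (2 * κ') := by rw [hmu']; linarith
    exact le_of_mul_le_mul_left h1 hm0
  have huτ : |u| ≤ τ / 2 := by
    have h1 : ν * τ * m ≤ τ / 4 * m := by
      apply mul_le_mul_of_nonneg_right _ hm0.le
      have := mul_le_mul_of_nonneg_right (show ν ≤ 1 / 4 by linarith) hτ0.le
      linarith
    have h2 : (m : ℝ) * |u| ≤ m * (τ / 2) := by rw [hmu']; linarith
    exact le_of_mul_le_mul_left h2 hm0
  obtain ⟨s, hs'⟩ : ∃ s : V d, s = C (m * τ) y2 := ⟨_, rfl⟩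
  rw [← hs'] at hx2m hm
  obtain ⟨σ, hσ⟩ : ∃ σ : V d, σ = (m : ℝ)⁻¹ • (s - C P' y') := ⟨_, rfl⟩
  have hmσ : (m : ℝ) • σ = s - C P' y' := by
    rw [hσ, smul_smul, mul_inv_cancel₀ hm0.ne', one_smul]
  have hσκ : ‖σ‖ ≤ 9 * κ' := by
    have h1 : (m : ℝ) • σ = (s - (m : ℝ) • a) - (m : ℝ) • ((τ / P) • C P q - a) -
        (C P' y' - ((m * τ) / P) • C P q) := by
      rw [hmσ, smul_sub, smul_smul]
      have : (m : ℝ) * (τ / P) = (m * τ) / P := by ring
      rw [this]
      abel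
    have h2 : ‖(m : ℝ) • ((τ / P) • C P q - a)‖ ≤ m * (6 * κ') := by
      rw [norm_smul, Real.norm_of_nonneg hm0.le]
      exact mul_le_mul_of_nonneg_left hτq hm0.le
    have h3 : ‖C P' y' - ((m * τ) / P) • C P q‖ ≤ 2 * κ' * m :=
      hy'c.trans (by linarith)
    have h4 : ‖s - (m : ℝ) • a‖ ≤ κ' * m := hm.trans (mul_le_mul_of_nonneg_right hεκ hm0.le)
    have h5 : ‖(m : ℝ) • σ‖ ≤ 9 * κ' * m := by
      rw [h1]
      refine (norm_sub_le _ _).trans ?_
      have h6 := norm_sub_le (s - (m : ℝ) • a) ((m : ℝ) • ((τ / P) • C P q - a))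
      linarith
    rw [norm_smul, Real.norm_of_nonneg hm0.le] at h5
    have h7 : (m : ℝ) * ‖σ‖ ≤ m * (9 * κ') := by linarith
    exact le_of_mul_le_mul_left h7 hm0
  have hparam : ‖((σ, u) : V d × ℝ)‖ < κ := by
    rw [Prod.norm_def]
    apply max_lt
    · show ‖σ‖ < κ
      linarith
    · show ‖u‖ < κ
      rw [Real.norm_eq_abs]
      linarith
  have hit : ∀ i, ((F.trans (dFlow H.flow u)).trans (dAct H.act σ))^[i] (Θ (x2, y')) =
      Θ (φ (C (i * (τ + u)) y' + (i : ℝ) • σ) (f^[i] x2), g (i * (τ + u)) y') := fun i =>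
    H.iter hcomm hF σ u i x2 y'
  have hitm : ((F.trans (dFlow H.flow u)).trans (dAct H.act σ))^[m] (Θ (x2, y')) =
      Θ (φ s (f^[m] x2), y') := by
    rw [hit, hmσ, hmu, hy'm]
    congr 3
    abel
  have hmem : ∀ x' : X, dist x' x ≤ η → Θ (x', y') ∈ χ.source ∧ ‖χ (Θ (x', y'))‖ < min κ (1 / 2) := by
    intro x' h1
    apply hball
    rw [Prod.dist_eq]
    exact max_le h1 hyη
  obtain ⟨ha1, ha2⟩ := hmem x2 (hx2.le.trans hεη)
  obtain ⟨hb2, hb3⟩ := hmem (φ s (f^[m] x2)) (hx2m.le.trans hεη)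
  refine hcl (σ, u) (Θ (x2, y')) ρ m hparam ha1 (ha2.trans_le (min_le_left _ _)) hρ hρκ hm1 ?_ ?_ ?_
  · show ((F.trans (dFlow H.flow u)).trans (dAct H.act σ))^[m] (Θ (x2, y')) ∈ χ.source
    rw [hitm]
    exact hb2
  · show ‖χ (((F.trans (dFlow H.flow u)).trans (dAct H.act σ))^[m] (Θ (x2, y'))) - _‖ < _
    rw [hitm, ← dist_eq_norm]
    apply huc3 (φ s (f^[m] x2), y') _ (x2, y')
    · rw [mem_closedBall, Prod.dist_eq]
      exact max_le (hx2.le.trans hεη) hyη
    · rw [Prod.dist_eq]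
      simp only [dist_self]
      have h5 := dist_triangle_right (φ s (f^[m] x2)) x2 x
      apply max_lt _ hδ3
      linarith
    · rw [mem_closedBall, Prod.dist_eq]
      exact max_le (hx2m.le.trans hεη) hyη
  · intro i hi0 him hsrc
    have hsrc' : ((F.trans (dFlow H.flow u)).trans (dAct H.act σ))^[i] (Θ (x2, y')) ∈ χ.source := hsrc
    show 2 * ρ ≤ ‖χ (((F.trans (dFlow H.flow u)).trans (dAct H.act σ))^[i] (Θ (x2, y'))) - _‖
    rw [hit] at hsrc' ⊢
    have hτu : τ / 2 ≤ τ + u := by linarith [(abs_le.1 huτ).1]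
    have hi1 : (1 : ℝ) ≤ i := by exact_mod_cast hi0
    have him1 : (i : ℝ) + 1 ≤ m := by exact_mod_cast him
    have hi2 : 1 * (τ / 2) ≤ i * (τ + u) := mul_le_mul hi1 hτu (by positivity) (by linarith)
    have hi3 : ((i : ℝ) + 1) * (τ + u) ≤ m * (τ + u) :=
      mul_le_mul_of_nonneg_right him1 (by linarith)
    have hd := hy's (i * (τ + u)) (by linarith) (by rw [← hmu]; linarith)
    have h5 := hsep (x2, y') _ (by
      rw [Prod.dist_eq]
      exact hd.trans (le_max_right _ _)) ha1 (ha2.trans_le (min_le_right _ _)) hsrc'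
    linarith

end Run7.h619.SK
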