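import Pool.Agent.Run7.h619.SK.Defs

/-!
# The closing lemma for skew products over chain transitive maps with the periodic shadowing property
-/

set_option autoImplicit false
set_option linter.unusedSectionVars false

open Filter Set Metric
open scoped Manifold ContDiff Topology

universe u v w

namespace Run7.h619.SK

open Pool.Agent.H718R2.G Pool.Agent.W564.SC Pool.Agent.W216.SC

/-! ### returns -/

theorem long {Z : Type*} [MetricSpace Z] {S : Z → Z} (hS : Continuous S) {p : Z}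
    (hw : NonWand S p) (ε : ℝ) (hε : 0 < ε) (M : ℕ) :
    ∃ (p1 : Z) (m : ℕ), M ≤ m ∧ 1 ≤ m ∧ dist p1 p < ε ∧ dist (S^[m] p1) p < ε := by
  by_cases hper : ∃ b : ℕ, 1 ≤ b ∧ S^[b] p = p
  · obtain ⟨b, hb, hbp⟩ := hper
    have h1 : M + 1 ≤ b * (M + 1) := Nat.le_mul_of_pos_left _ (by omega)
    refine ⟨p, b * (M + 1), by omega, by omega, by rw [dist_self]; exact hε, ?_⟩
    rw [Function.iterate_mul, Function.iterate_fixed hbp, dist_self]
    exact hε
  push Not at hper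
  obtain ⟨c, hc, hcm⟩ := exists_pos_le (Finset.Ico 1 M) (fun i => dist (S^[i] p) p) (by
    intro i hi
    rw [Finset.mem_Ico] at hi
    exact dist_pos.2 (hper i hi.1))
  have hW : {p' : Z | dist p' p < min ε (c / 2) ∧
      ∀ i ∈ Finset.Ico 1 M, dist (S^[i] p') (S^[i] p) < c / 2} ∈ 𝓝 p := by
    have h1 : ∀ᶠ p' in 𝓝 p, dist p' p < min ε (c / 2) :=
      Metric.ball_mem_nhds p (lt_min hε (half_pos hc))
    have h2 : ∀ᶠ p' in 𝓝 p, ∀ i ∈ Finset.Ico 1 M, dist (S^[i] p') (S^[i] p) < c / 2 := by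
      rw [Finset.eventually_all]
      intro i _
      have h3 : ContinuousAt (S^[i]) p := (hS.iterate i).continuousAt
      exact h3 (Metric.ball_mem_nhds _ (half_pos hc))
    exact h1.and h2
  obtain ⟨m, hm, p1, hp1, hp1'⟩ := hw _ hW
  refine ⟨p1, m, ?_, hm, hp1.1.trans_le (min_le_left _ _), hp1'.1.trans_le (min_le_left _ _)⟩
  by_contra hM
  have hmem : m ∈ Finset.Ico 1 M := by rw [Finset.mem_Ico]; omega
  have h1 := hcm m hmem
  have h2 := hp1.2 m hmem
  have h3 : dist (S^[m] p1) p < c / 2 := hp1'.1.trans_le (min_le_right _ _)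
  have h4 := dist_triangle (S^[m] p) (S^[m] p1) p
  rw [dist_comm] at h2
  linarith

section

variable {d : ℕ} {X : Type v} {Y : Type w} {φ : V d → X → X} {f : X → X} {h : Y → Y} {c : Y → V d}

theorem comm_iter (hcomm : ∀ s x, f (φ s x) = φ s (f x)) (i : ℕ) (s : V d) (x : X) :
    f^[i] (φ s x) = φ s (f^[i] x) := by
  induction i with
  | zero => rfl
  | succ i ih => rw [Function.iterate_succ_apply', ih, hcomm, Function.iterate_succ_apply']

theorem skew_iter (h0 : ∀ x, φ 0 x = x) (hadd : ∀ s t x, φ (s + t) x = φ s (φ t x))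
    (hcomm : ∀ s x, f (φ s x) = φ s (f x)) (i : ℕ) (x : X) (y : Y) :
    (skew φ f h c)^[i] (x, y) = (φ (birkhoffSum h c i y) (f^[i] x), h^[i] y) := by
  induction i with
  | zero =>
    rw [birkhoffSum_zero, Function.iterate_zero, Function.iterate_zero, Function.iterate_zero]
    simp only [id_eq]
    rw [h0]
  | succ i ih =>
    rw [Function.iterate_succ_apply', ih, birkhoffSum_succ]
    unfold skew
    simp only
    rw [hcomm, ← hadd, Function.iterate_succ_apply', Function.iterate_succ_apply', add_comm]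

variable [MetricSpace X] [MetricSpace Y] [CompactSpace Y]

/-- the direction of the returns -/
theorem dir (h0 : ∀ x, φ 0 x = x) (hadd : ∀ s t x, φ (s + t) x = φ s (φ t x))
    (hcomm : ∀ s x, f (φ s x) = φ s (f x)) (hS : Continuous (skew φ f h c)) (hc : Continuous c)
    (x : X) (y : Y) (hw : NonWand (skew φ f h c) (x, y)) :
    ∃ τ : V d, ∀ ε : ℝ, 0 < ε → ∀ M : ℕ, ∃ (m : ℕ) (x1 : X) (y1 : Y), M ≤ m ∧ 1 ≤ m ∧
      dist x1 x < ε ∧ dist y1 y < ε ∧ dist (φ (birkhoffSum h c m y1) (f^[m] x1)) x < ε ∧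
      dist (h^[m] y1) y < ε ∧ ‖birkhoffSum h c m y1 - (m : ℝ) • τ‖ ≤ ε * m := by
  obtain ⟨B, hB⟩ : ∃ B : ℝ, ∀ y, ‖c y‖ ≤ B := by
    obtain ⟨B, hB⟩ := isCompact_univ.exists_bound_of_continuousOn hc.continuousOn
    exact ⟨B, fun y => hB y (mem_univ y)⟩
  have hex : ∀ j : ℕ, ∃ (p : X × Y) (m : ℕ), j ≤ m ∧ 1 ≤ m ∧ dist p (x, y) < 1 / ((j : ℝ) + 1) ∧
      dist ((skew φ f h c)^[m] p) (x, y) < 1 / ((j : ℝ) + 1) := fun j =>
    long hS hw _ (by positivity) j
  choose p m hjm hm1 hp hpm using hex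
  obtain ⟨a, ha⟩ : ∃ a : ℕ → V d, a = fun j => ((m j : ℝ))⁻¹ • birkhoffSum h c (m j) (p j).2 :=
    ⟨_, rfl⟩
  have hm0 : ∀ j, (0 : ℝ) < m j := fun j => by
    have := hm1 j
    exact_mod_cast this
  have haB : ∀ j, a j ∈ closedBall (0 : V d) B := by
    intro j
    rw [mem_closedBall_zero_iff, ha]
    simp only
    rw [norm_smul, norm_inv, Real.norm_of_nonneg (hm0 j).le, inv_mul_le_iff₀ (hm0 j)]
    unfold birkhoffSum
    refine (norm_sum_le _ _).trans ?_
    refine (Finset.sum_le_sum (fun i _ => hB _)).trans ?_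
    rw [Finset.sum_const, Finset.card_range, nsmul_eq_mul]
  obtain ⟨τ, -, θ, hθ, hτ⟩ := (isCompact_closedBall (0 : V d) B).tendsto_subseq haB
  refine ⟨τ, fun ε hε M => ?_⟩
  have h1 : ∀ᶠ j in atTop, dist (a (θ j)) τ < ε := hτ.eventually (Metric.ball_mem_nhds τ hε)
  have h2 : Tendsto (fun j : ℕ => 1 / (((θ j : ℕ) : ℝ) + 1)) atTop (𝓝 0) :=
    tendsto_one_div_add_atTop_nhds_zero_nat.comp hθ.tendsto_atTop
  have h3 : ∀ᶠ j in atTop, 1 / (((θ j : ℕ) : ℝ) + 1) < ε := h2.eventually (gt_mem_nhds hε)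
  have h4 : ∀ᶠ j in atTop, M ≤ θ j := hθ.tendsto_atTop.eventually_ge_atTop M
  obtain ⟨j, hj1, hj2, hj3⟩ := (h1.and (h3.and h4)).exists
  obtain ⟨i, hi⟩ : ∃ i, i = θ j := ⟨_, rfl⟩
  rw [← hi] at hj1 hj2 hj3
  have h5 := hp i
  have h6 := hpm i
  rw [← Prod.mk.eta (p := p i), skew_iter h0 hadd hcomm] at h6
  rw [Prod.dist_eq] at h5 h6
  have h7 : dist (p i).1 x < 1 / ((i : ℝ) + 1) := (le_max_left _ _).trans_lt h5
  have h8 : dist (p i).2 y < 1 / ((i : ℝ) + 1) := (le_max_right _ _).trans_lt h5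
  have h9 : dist (φ (birkhoffSum h c (m i) (p i).2) (f^[m i] (p i).1)) x < 1 / ((i : ℝ) + 1) :=
    (le_max_left _ _).trans_lt h6
  have h10 : dist (h^[m i] (p i).2) y < 1 / ((i : ℝ) + 1) := (le_max_right _ _).trans_lt h6
  refine ⟨m i, (p i).1, (p i).2, hj3.trans (hjm i), hm1 i, h7.trans hj2, h8.trans hj2, h9.trans hj2,
    h10.trans hj2, ?_⟩
  have h11 : birkhoffSum h c (m i) (p i).2 - (m i : ℝ) • τ = (m i : ℝ) • (a i - τ) := by
    rw [ha]
    simp only
    rw [smul_sub, smul_smul, mul_inv_cancel₀ (hm0 i).ne', one_smul]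
  rw [h11, norm_smul, Real.norm_of_nonneg (hm0 i).le, mul_comm, ← dist_eq_norm]
  exact mul_le_mul_of_nonneg_right hj1.le (hm0 i).le

end

/-- there are points near `y` outside of a given periodic orbit -/
theorem exists_near {Y : Type w} [MetricSpace Y] [CompactSpace Y] [Infinite Y] {h : Y ≃ₜ Y}
    (hs : PerShadow h) (hT : ChainTrans h) (y q : Y) (b : ℕ) (hb : 1 ≤ b) (hq : h^[b] q = q) (ε : ℝ)
    (hε : 0 < ε) : ∃ y₀ : Y, dist y₀ y < ε ∧ ∀ i : ℕ, h^[i] q ≠ y₀ := by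
  obtain ⟨q2, b2, hb2, hq2, hq2y⟩ := exists_other hs hT y
  obtain ⟨δ, ρ, C, M, hδ, hρ, H⟩ := flex hs hT y q2 b2 hb2 hq2 hq2y (fun _ => (0 : ℝ))
    continuous_const ε hε
  have h1 : M + 2 ≤ b * (M + 2) := Nat.le_mul_of_pos_left _ (by omega)
  have h2 : b * 2 ≤ b * (M + 2) := Nat.mul_le_mul_left _ (by omega)
  have hqm : h^[b * (M + 2)] q = q := by
    rw [Function.iterate_mul]
    exact Function.iterate_fixed hq _
  obtain ⟨y', hy', -, hsep, -⟩ := H (b * (M + 2)) (by omega) q (by rw [hqm, dist_self]; exact hδ)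
  refine ⟨y', hy', fun i hi => ?_⟩
  have h3 : h^[b] y' = y' := by
    rw [← hi, ← Function.iterate_add_apply, add_comm, Function.iterate_add_apply, hq]
  have h4 := hsep b (by omega) (by omega)
  rw [h3, dist_self] at h4
  linarith

/-! ### the action -/

section

variable {d n : ℕ} {N : Type u} [TopologicalSpace N] [ChartedSpace (V n) N] {r : ℕ∞}
  {ψ : V d → N → N}

/-- the maps of an action as diffeomorphisms -/
noncomputable def dAct (hψ : IsAct d n N r ψ) (s : V d) : DiffM n N r where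
  toFun := ψ s
  invFun := ψ (-s)
  left_inv y := by rw [← hψ.add, neg_add_cancel, hψ.zero]
  right_inv y := by rw [← hψ.add, add_neg_cancel, hψ.zero]
  contMDiff_toFun := by
    have h1 : ContMDiff (𝓡 n) ((𝓡 d).prod (𝓡 n)) r (fun y : N => (s, y)) :=
      contMDiff_const.prodMk contMDiff_id
    exact hψ.smooth.comp h1
  contMDiff_invFun := by
    have h1 : ContMDiff (𝓡 n) ((𝓡 d).prod (𝓡 n)) r (fun y : N => (-s, y)) :=
      contMDiff_const.prodMk contMDiff_id
    exact hψ.smooth.comp h1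

theorem fam (hψ : IsAct d n N r ψ) (F : DiffM n N r) :
    IsFam n N r (fun s : V d => F.trans (dAct hψ s)) := by
  intro y
  have h1 : ContMDiffAt ((𝓡 d).prod (𝓡 n)) (𝓡 n) r (fun z : V d × N => F z.2) ((0 : V d), y) :=
    (F.contMDiff.contMDiffAt).comp _ contMDiffAt_snd
  have h2 : ContMDiffAt ((𝓡 d).prod (𝓡 n)) (𝓡 d) r (fun z : V d × N => z.1) ((0 : V d), y) :=
    contMDiffAt_fst
  have h3 := h2.prodMk h1
  exact ContMDiffAt.comp (g := fun q : V d × N => ψ q.1 q.2)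
    (f := fun z : V d × N => (z.1, F z.2)) _ (hψ.smooth.contMDiffAt) h3

end

section

variable {d n : ℕ} {N : Type u} [TopologicalSpace N] [ChartedSpace (V n) N] {r : ℕ∞}
  {F : DiffM n N r} {X : Type v} {Y : Type w} [TopologicalSpace X] [TopologicalSpace Y]
  {Θ : X × Y → N} {ψ : V d → N → N} {φ : V d → X → X} {f : X → X} {h : Y → Y} {c : Y → V d}

theorem IsSkew.phi_zero [Nonempty Y] (H : IsSkew F Θ ψ φ f h c) (x : X) : φ 0 x = x := by
  obtain ⟨y⟩ := ‹Nonempty Y›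
  have h1 := H.restr 0 x y
  rw [H.act.zero] at h1
  exact (congrArg Prod.fst (H.emb.injective h1)).symm

theorem IsSkew.phi_add [Nonempty Y] (H : IsSkew F Θ ψ φ f h c) (s t : V d) (x : X) :
    φ (s + t) x = φ s (φ t x) := by
  obtain ⟨y⟩ := ‹Nonempty Y›
  have h1 := H.restr (s + t) x y
  rw [H.act.add, H.restr t x y, H.restr s] at h1
  exact (congrArg Prod.fst (H.emb.injective h1)).symm

theorem IsSkew.phi_cont [Nonempty Y] (H : IsSkew F Θ ψ φ f h c) :
    Continuous fun q : V d × X => φ q.1 q.2 := by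
  obtain ⟨y⟩ := ‹Nonempty Y›
  have h1 : Continuous fun q : V d × X => Θ (φ q.1 q.2, y) := by
    have h2 : (fun q : V d × X => Θ (φ q.1 q.2, y)) =
        (fun q : V d × N => ψ q.1 q.2) ∘ (fun q : V d × X => (q.1, Θ (q.2, y))) := by
      funext q
      exact (H.restr q.1 q.2 y).symm
    rw [h2]
    have h3 : Continuous fun q : V d × X => (q.1, Θ (q.2, y)) :=
      continuous_fst.prodMk (H.emb.continuous.comp (continuous_snd.prodMk continuous_const))
    exact H.act.smooth.continuous.comp h3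
  exact continuous_fst.comp (H.emb.continuous_iff.2 h1)

theorem IsSkew.skew_cont [Nonempty Y] (H : IsSkew F Θ ψ φ f h c) (hh : Continuous h) :
    Continuous (skew φ f h c) := by
  have h1 : Continuous fun p : X × Y => (c p.2, f p.1) :=
    (H.contc.comp continuous_snd).prodMk (H.contf.comp continuous_fst)
  exact (H.phi_cont.comp h1).prodMk (hh.comp continuous_snd)

theorem IsSkew.iter [Nonempty Y] (H : IsSkew F Θ ψ φ f h c) (s : V d) (i : ℕ) (x : X) (y : Y) :
    (F.trans (dAct H.act s))^[i] (Θ (x, y)) =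
      Θ (φ (birkhoffSum h c i y + (i : ℝ) • s) (f^[i] x), h^[i] y) := by
  induction i with
  | zero =>
    rw [birkhoffSum_zero, Nat.cast_zero, zero_smul, add_zero, H.phi_zero]
    rfl
  | succ i ih =>
    rw [Function.iterate_succ_apply', ih]
    show ψ s (F (Θ _)) = _
    rw [H.map]
    unfold skew
    simp only
    rw [H.restr, H.comm, ← H.phi_add, ← H.phi_add, Function.iterate_succ_apply',
      Function.iterate_succ_apply', birkhoffSum_succ]
    congr 3
    push_cast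
    rw [add_smul, one_smul]
    abel

end

/-- **The closing lemma for skew products.** -/
theorem closable_of_skew {d n : ℕ} {N : Type u} [TopologicalSpace N] [T2Space N] [CompactSpace N]
    [ChartedSpace (V n) N] [IsManifold (𝓡 n) ∞ N] {r : ℕ∞} (hr : 1 ≤ r) (F : DiffM n N r)
    {X : Type v} {Y : Type w} [MetricSpace X] [CompactSpace X] [MetricSpace Y] [CompactSpace Y]
    [Infinite Y] {Θ : X × Y → N} {ψ : V d → N → N} {φ : V d → X → X} {f : X → X} {h : Y ≃ₜ Y}
    {c : Y → V d} (H : IsSkew F Θ ψ φ f h c) (hs : PerShadow h) (hT : ChainTrans h) (x : X) (y : Y)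
    (hw : NonWand (skew φ f h c) (x, y)) : Closable n N r F (Θ (x, y)) := by
  intro U hU hFU
  obtain ⟨τ, hτ⟩ := dir H.phi_zero H.phi_add H.comm (H.skew_cont h.continuous) H.contc x y hw
  obtain ⟨χ, hχ⟩ := Pool.Agent.W699.SC.gc n N (Θ (x, y))
  have h0 : F.trans (dAct H.act 0) = F := by
    ext z
    exact H.act.zero _
  obtain ⟨k, hk, κ, hκ, hcl⟩ := t_CL n N r hr (V d) _ (fam H.act F) χ (Θ (x, y)) hχ U hU
    (by rw [h0]; exact hFU)
  obtain ⟨η, hη, hball⟩ := good_ball H.emb hχ rfl (lt_min hκ (half_pos one_pos) :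
    (0 : ℝ) < min κ (1 / 2))
  obtain ⟨κ', hκ'⟩ : ∃ κ' : ℝ, κ' = κ / 8 := ⟨_, rfl⟩
  have hκ'0 : 0 < κ' := by rw [hκ']; positivity
  -- the periodic orbit `q`
  have huc := CompactSpace.uniformContinuous_of_continuous H.contc
  obtain ⟨e, he, hec⟩ := Metric.uniformContinuous_iff.1 huc κ' hκ'0
  obtain ⟨δ₁, hδ₁, hsh⟩ := hs e he
  obtain ⟨b, x1, y1, -, hb1, -, hy1, -, hy1b, hb⟩ := hτ (min κ' (δ₁ / 2))
    (lt_min hκ'0 (half_pos hδ₁)) 1
  have hret : dist (h^[b] y1) y1 < δ₁ := by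
    have h1 := dist_triangle_right (h^[b] y1) y1 y
    have h2 := min_le_right κ' (δ₁ / 2)
    linarith
  obtain ⟨q, hq, hqy⟩ := hsh b (fun i => if i < b then h^[i] y1 else y1) hb1 (by
    have h1 : 0 < b := by omega
    simp only [lt_irrefl, if_false, h1, if_true]
    rfl) (by
    intro i hi
    simp only [hi, if_true]
    rw [← Function.iterate_succ_apply' h]
    split_ifs with h1
    · rw [dist_self]
      exact hδ₁
    · have h2 : i.succ = b := by omega
      rw [h2]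
      exact hret)
  obtain ⟨τq, hτq⟩ : ∃ τq : V d, τq = (b : ℝ)⁻¹ • birkhoffSum h c b q := ⟨_, rfl⟩
  have hb0 : (0 : ℝ) < b := by exact_mod_cast hb1
  have hττ : ‖τq - τ‖ ≤ 2 * κ' := by
    have h1 : ‖birkhoffSum h c b q - birkhoffSum h c b y1‖ ≤ κ' * b := by
      unfold birkhoffSum
      rw [← Finset.sum_sub_distrib]
      refine (norm_sum_le _ _).trans ?_
      have h2 : ∀ i ∈ Finset.range b, ‖c (h^[i] q) - c (h^[i] y1)‖ ≤ κ' := by
        intro i hi
        have h3 := hqy i (Finset.mem_range.1 hi)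
        simp only [Finset.mem_range.1 hi, if_true] at h3
        rw [← dist_eq_norm]
        exact (hec h3).le
      refine (Finset.sum_le_sum h2).trans ?_
      rw [Finset.sum_const, Finset.card_range, nsmul_eq_mul, mul_comm]
    have h2 : ‖birkhoffSum h c b y1 - (b : ℝ) • τ‖ ≤ κ' * b :=
      hb.trans (mul_le_mul_of_nonneg_right (min_le_left _ _) hb0.le)
    have h3 : (b : ℝ) • (τq - τ) = (birkhoffSum h c b q - birkhoffSum h c b y1) +
        (birkhoffSum h c b y1 - (b : ℝ) • τ) := by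
      rw [hτq, smul_sub, smul_smul, mul_inv_cancel₀ hb0.ne', one_smul]
      abel
    have h4 : ‖(b : ℝ) • (τq - τ)‖ ≤ κ' * b + κ' * b := by
      rw [h3]
      exact (norm_add_le _ _).trans (add_le_add h1 h2)
    rw [norm_smul, Real.norm_of_nonneg hb0.le] at h4
    have h5 : (b : ℝ) * ‖τq - τ‖ ≤ b * (2 * κ') := by linarith
    exact le_of_mul_le_mul_left h5 hb0
  -- the initial point
  obtain ⟨y₀, hy₀, hqy₀⟩ := exists_near hs hT y q b hb1 hq (η / 2) (half_pos hη)
  obtain ⟨δ, ρ₀, C, M, hδ, hρ₀, hflex⟩ := flex hs hT y₀ q b hb1 hq hqy₀ c H.contc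
    (min (η / 2) κ') (lt_min (half_pos hη) hκ'0)
  rw [← hτq] at hflex
  obtain ⟨ρ1, hρ1, hsep⟩ := sep (X := X) (Y := Y) H.emb hχ hρ₀
  obtain ⟨ρ, hρd⟩ : ∃ ρ : ℝ, ρ = min (ρ1 / 2) (κ / 2) := ⟨_, rfl⟩
  have hρ : 0 < ρ := by rw [hρd]; exact lt_min (half_pos hρ1) (half_pos hκ)
  have hρκ : ρ < κ := by
    rw [hρd]
    exact (min_le_right _ _).trans_lt (half_lt_self hκ)
  have hρρ : 2 * ρ ≤ ρ1 := by
    have := min_le_left (ρ1 / 2) (κ / 2)
    rw [← hρd] at this
    linarith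
  -- uniform continuity
  have hBc : IsCompact (closedBall ((x, y) : X × Y) η) := Metric.isClosed_closedBall.isCompact
  have hco : ContinuousOn (fun p : X × Y => χ (Θ p)) (closedBall ((x, y) : X × Y) η) := by
    apply χ.continuousOn.comp H.emb.continuous.continuousOn
    intro p hp
    exact (hball p hp).1
  have huc2 := hBc.uniformContinuousOn_of_continuous hco
  rw [Metric.uniformContinuousOn_iff] at huc2
  have hκρ : 0 < κ * ρ ^ k := by positivity
  obtain ⟨δ3, hδ3, huc3⟩ := huc2 (κ * ρ ^ k) hκρ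
  obtain ⟨ε, hεd⟩ : ∃ ε : ℝ, ε = min (min η κ') (min (δ / 2) (δ3 / 2)) := ⟨_, rfl⟩
  have hε : 0 < ε := by
    rw [hεd]
    exact lt_min (lt_min hη hκ'0) (lt_min (half_pos hδ) (half_pos hδ3))
  have hεη : ε ≤ η := by rw [hεd]; exact (min_le_left _ _).trans (min_le_left _ _)
  have hεκ : ε ≤ κ' := by rw [hεd]; exact (min_le_left _ _).trans (min_le_right _ _)
  have hεδ : ε ≤ δ / 2 := by rw [hεd]; exact (min_le_right _ _).trans (min_le_left _ _)
  have hεδ3 : ε ≤ δ3 / 2 := by rw [hεd]; exact (min_le_right _ _).trans (min_le_right _ _)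
  obtain ⟨M', hM'⟩ := exists_nat_ge (C / κ')
  obtain ⟨m, x2, y2, hmM, hm1, hx2, hy2, hx2m, hy2m, hm⟩ := hτ ε hε (max M M')
  have hm0 : (0 : ℝ) < m := by exact_mod_cast hm1
  have hCm : C ≤ κ' * m := by
    have h1 : (M' : ℝ) ≤ m := by
      have := (le_max_right M M').trans hmM
      exact_mod_cast this
    rw [div_le_iff₀ hκ'0] at hM'
    nlinarith
  obtain ⟨y', hy', hy'm, hy's, hy'c⟩ := hflex m ((le_max_left M M').trans hmM) y2 (by
    have h1 := dist_triangle_right (h^[m] y2) y2 y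
    linarith)
  have hyη : dist y' y ≤ η := by
    have h1 := dist_triangle y' y₀ y
    have h2 := min_le_left (η / 2) κ'
    linarith
  obtain ⟨s, hs'⟩ : ∃ s : V d, s = birkhoffSum h c m y2 := ⟨_, rfl⟩
  rw [← hs'] at hx2m hm
  obtain ⟨σ, hσ⟩ : ∃ σ : V d, σ = (m : ℝ)⁻¹ • (s - birkhoffSum h c m y') := ⟨_, rfl⟩
  have hmσ : (m : ℝ) • σ = s - birkhoffSum h c m y' := by
    rw [hσ, smul_smul, mul_inv_cancel₀ hm0.ne', one_smul]
  have hσκ : ‖σ‖ < κ := by
    have h1 : (m : ℝ) • σ = (s - (m : ℝ) • τ) - (m : ℝ) • (τq - τ) -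
        (birkhoffSum h c m y' - (m : ℝ) • τq) := by
      rw [hmσ, smul_sub]
      abel
    have h2 : ‖(m : ℝ) • (τq - τ)‖ ≤ m * (2 * κ') := by
      rw [norm_smul, Real.norm_of_nonneg hm0.le]
      exact mul_le_mul_of_nonneg_left hττ hm0.le
    have h3 : ‖birkhoffSum h c m y' - (m : ℝ) • τq‖ ≤ κ' * m + C :=
      hy'c.trans (by
        have := mul_le_mul_of_nonneg_right (min_le_right (η / 2) κ') hm0.le
        linarith)
    have h4 : ‖s - (m : ℝ) • τ‖ ≤ κ' * m := hm.trans (mul_le_mul_of_nonneg_right hεκ hm0.le)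
    have h5 : ‖(m : ℝ) • σ‖ ≤ 5 * κ' * m := by
      rw [h1]
      refine (norm_sub_le _ _).trans ?_
      have h6 := norm_sub_le (s - (m : ℝ) • τ) ((m : ℝ) • (τq - τ))
      linarith
    rw [norm_smul, Real.norm_of_nonneg hm0.le] at h5
    have h7 : (m : ℝ) * ‖σ‖ ≤ m * (5 * κ') := by linarith
    have h8 := le_of_mul_le_mul_left h7 hm0
    rw [hκ'] at h8
    linarith
  have hit : ∀ i, (F.trans (dAct H.act σ))^[i] (Θ (x2, y')) =
      Θ (φ (birkhoffSum h c i y' + (i : ℝ) • σ) (f^[i] x2), h^[i] y') := fun i =>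
    H.iter σ i x2 y'
  have hitm : (F.trans (dAct H.act σ))^[m] (Θ (x2, y')) = Θ (φ s (f^[m] x2), y') := by
    rw [hit, hmσ, hy'm]
    congr 3
    abel
  have hmem : ∀ x' : X, dist x' x ≤ η → Θ (x', y') ∈ χ.source ∧ ‖χ (Θ (x', y'))‖ < min κ (1 / 2) := by
    intro x' h1
    apply hball
    rw [Prod.dist_eq]
    exact max_le h1 hyη
  obtain ⟨ha1, ha2⟩ := hmem x2 (hx2.le.trans hεη)
  obtain ⟨hb2, hb3⟩ := hmem (φ s (f^[m] x2)) (hx2m.le.trans hεη)
  refine hcl σ (Θ (x2, y')) ρ m hσκ ha1 (ha2.trans_le (min_le_left _ _)) hρ hρκ hm1 ?_ ?_ ?_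
  · rw [hitm]
    exact hb2
  · rw [hitm, ← dist_eq_norm]
    apply huc3 (φ s (f^[m] x2), y') _ (x2, y')
    · rw [mem_closedBall, Prod.dist_eq]
      exact max_le (hx2.le.trans hεη) hyη
    · rw [Prod.dist_eq]
      simp only [dist_self]
      have h5 := dist_triangle_right (φ s (f^[m] x2)) x2 x
      apply max_lt _ hδ3
      linarith
    · rw [mem_closedBall, Prod.dist_eq]
      exact max_le (hx2m.le.trans hεη) hyη
  · intro i hi0 him hsrc
    rw [hit] at hsrc ⊢
    have h5 := hsep (x2, y') _ (by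
      rw [Prod.dist_eq]
      exact (hy's i hi0 him).trans (le_max_right _ _)) ha1 (ha2.trans_le (min_le_right _ _)) hsrc
    linarith

end Run7.h619.SK
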