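import Pool.Agent.Run7.h619.SK.Main
import Pool.Agent.TH382.HS.Limit

/-!
# Skew products over chain transitive maps with the periodic shadowing property: statement
-/

set_option autoImplicit false
set_option linter.unusedSectionVars false

open Filter Set Metric
open scoped Manifold ContDiff Topology

universe u v w

namespace Run7.h619.SK

open Pool.Agent.H718R2.G Pool.Agent.W564.SC Pool.Agent.TH382.QC Pool.Agent.TH382.HS

variable {n : ℕ} {N : Type u} [TopologicalSpace N] [T2Space N] [CompactSpace N]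
  [ChartedSpace (V n) N] [IsManifold (𝓡 n) ∞ N] {r : ℕ∞}

theorem closable_of_point (hr : 1 ≤ r) (F : DiffM n N r) (z : N)
    (h : IsSkewPoint.{u, v, w} n N r F z) : ClosableAt n N r F z := by
  obtain ⟨d, X, Y, _, _, _, _, _, Θ, ψ, φ, f, h, c, hF, hs, hT, ⟨x, y⟩, rfl, hw⟩ := h
  exact closable_of_skew hr F hF hs hT x y hw

theorem limit_skew (hr : 1 ≤ r) (F : DiffM n N r) (z : N)
    (h : ∀ U : Set (DiffM n N r), IsOpen[strongTop n N r] U → F ∈ U →
      ∃ F' ∈ U, z ∈ closure {y | IsSkewPoint.{u, v, w} n N r F' y}) : ClosableAt n N r F z := by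
  apply closable_of_limit
  intro U hU hFU
  obtain ⟨F', hF', hz⟩ := h U hU hFU
  exact ⟨F', hF', closure_mono (fun y hy => closable_of_point hr F' y hy) hz⟩

/-- the trivial action of `ℝ^0` -/
theorem trivial_act (n : ℕ) (N : Type u) [TopologicalSpace N] [ChartedSpace (V n) N] (r : ℕ∞) :
    IsAct 0 n N r (fun _ y => y) :=
  ⟨contMDiff_snd, fun _ => rfl, fun _ _ _ => rfl⟩

theorem chainTrans_of_mixing {Y : Type*} [MetricSpace Y] {h : Y → Y} (hm : ChainMix h) :
    ChainTrans h := by
  intro δ hδ p q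
  obtain ⟨L, hL⟩ := hm δ hδ
  obtain ⟨w, h1, h2, h3⟩ := hL (L + 1) (Nat.le_succ L) p q
  exact ⟨L + 1, w, by omega, h1, h2, h3⟩

theorem product_skew (F : DiffM n N r) {X : Type v} {Y : Type w} [TopologicalSpace X]
    [TopologicalSpace Y] {Θ : X × Y → N} (hΘ : Topology.IsEmbedding Θ) {f : X → X}
    (hf : Continuous f) {h : Y → Y} (hF : ∀ x y, F (Θ (x, y)) = Θ (f x, h y)) :
    IsSkew F Θ (fun (_ : V 0) y => y) (fun _ x => x) f h (fun _ => 0) where
  act := trivial_act n N r
  emb := hΘ
  restr := fun _ _ _ => rfl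
  contf := hf
  contc := continuous_const
  comm := fun _ _ => rfl
  map := fun p => hF p.1 p.2

end Run7.h619.SK
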